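import Mathlib
import Pool.Agent.H67.CT.LR

/-!
# Project MP_3cf290_FN: odd trees whose leaves sit on sufficiently many non-leaves

Aim: every odd tree on `2^n` vertices with `I` non-leaves is set-graceful if
`5000 * n * I <= 2^n`, or if for some `t` the number of non-leaves with at least `t` leaf neighbours
is at least `4608 * I / t`.

`V` is the vertex set, `p : V -> V` the parent function (`p r = r`), `d` the depth
(`d v = d (p v) + 1` for `v` different from `r`), `J` a finite abelian group of exponent two.
`Lab p r E g` is the version of `PLab p r E J` with an explicit labelling `g`.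
-/

set_option autoImplicit false

open Finset

namespace Pool.Agent.H60.FN

open Pool.Agent.H57.SS

/-- `g` is an injective labelling of `E`, the root has label `0`, and the colours
`g v + g (p v)` (with colour `0` at the root) are exactly the labels used. -/
structure Lab {V J : Type*} [DecidableEq V] [AddCommGroup J] [DecidableEq J] (p : V → V) (r : V)
    (E : Finset V) (g : V → J) : Prop where
  root : g r = 0
  inj : Set.InjOn g E
  im : E.image (fun v => g v + g (p v)) = E.image g

theorem Lab.plab {V J : Type*} [DecidableEq V] [AddCommGroup J] [DecidableEq J] {p : V → V} {r : V}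
    {E : Finset V} {g : V → J} (h : Lab p r E g) : PLab p r E J := ⟨g, h.root, h.inj, h.im⟩

/-- The unfinished state: all labels are in the kernel of `χ`, only vertices of `H` (and the root)
have labels in `Z`, and at least one eighth of the vertices of `E ∩ H` have labels in `Z`. -/
def Unf {V J : Type*} [DecidableEq V] [AddCommGroup J] [DecidableEq J] (p : V → V) (r : V)
    (χ : J →+ ZMod 2) (Z : Finset J) (H E : Finset V) : Prop :=
  ∃ g : V → J, Lab p r E g ∧ (∀ v ∈ E, χ (g v) = 0) ∧ (∀ v ∈ E, g v ∈ Z → v = r ∨ v ∈ H) ∧
    (E ∩ H).card ≤ 8 * ((E ∩ H).filter (fun v => g v ∈ Z)).card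

/-- The finished state: every nonzero element of `Z` is the label of a vertex of `E ∩ H`. -/
def Fnd {V J : Type*} [DecidableEq V] [AddCommGroup J] [DecidableEq J] (p : V → V) (r : V)
    (Z : Finset J) (H E : Finset V) : Prop :=
  ∃ g : V → J, Lab p r E g ∧ ∀ z ∈ Z, z ≠ 0 → ∃ v ∈ E ∩ H, g v = z

end Pool.Agent.H60.FN
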