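import Mathlib
import Pool.Agent.H60.FN.Defs

/-!
# FNAdd: adding one child of the root, or a pair of siblings, to a labelling

Proof.  Copy the proofs of `plab_add_one` and `plab_add_two` in `Pool/Agent/H57/SS/Rooted.lean`
(they construct exactly these functions); the only difference is that `x` is given here.
-/

set_option autoImplicit false

open Finset

namespace Pool.Agent.H60.FN

open Pool.Agent.H57.SS

theorem lab_add_one {V J : Type*} [DecidableEq V] [AddCommGroup J] [DecidableEq J] {p : V → V}
    {r : V} {E : Finset V} {g : V → J} (hr : r ∈ E) (hpE : ∀ u ∈ E, p u ∈ E) (h : Lab p r E g)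
    {v : V} (hv : v ∉ E) (hpv : p v = r) {x : J} (hx : x ∉ E.image g) :
    Lab p r (insert v E) (Function.update g v x) := by
  obtain ⟨hg0, hginj, hgim⟩ := h
  have hvr : v ≠ r := fun h => hv (h ▸ hr)
  have hgE : ∀ u ∈ E, Function.update g v x u = g u := by
    intro u hu
    exact Function.update_of_ne (fun h : u = v => hv (h ▸ hu)) _ _
  have himg : (insert v E).image (Function.update g v x) = insert x (E.image g) := by
    rw [image_insert, Function.update_self]
    congr 1
    exact image_congr (fun u hu => hgE u hu)
  refine ⟨by rw [Function.update_of_ne hvr.symm]; exact hg0, ?_, ?_⟩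
  · intro a ha b hb hab
    rw [mem_coe, mem_insert] at ha hb
    rcases ha with rfl | ha
    · rcases hb with rfl | hb
      · rfl
      · exfalso
        rw [Function.update_self, hgE b hb] at hab
        exact hx (mem_image.2 ⟨b, hb, hab.symm⟩)
    · rcases hb with rfl | hb
      · exfalso
        rw [Function.update_self, hgE a ha] at hab
        exact hx (mem_image.2 ⟨a, ha, hab⟩)
      · rw [hgE a ha, hgE b hb] at hab
        exact hginj ha hb hab
  · rw [himg, image_insert, Function.update_self, hpv, hgE r hr, hg0, add_zero]
    congr 1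
    rw [← hgim]
    apply image_congr
    intro u hu
    simp only [hgE u hu, hgE (p u) (hpE u hu)]

theorem lab_add_two {V J : Type*} [DecidableEq V] [AddCommGroup J] [DecidableEq J]
    (hJ : ∀ x : J, x + x = 0) {p : V → V} {r : V} {E : Finset V} {g : V → J} (hr : r ∈ E)
    (hpE : ∀ u ∈ E, p u ∈ E) (h : Lab p r E g) {v v' : V} (hv : v ∉ E) (hv' : v' ∉ E)
    (hne : v ≠ v') (hpvE : p v ∈ E) (hpvr : p v ≠ r) (hpp : p v' = p v) {x : J}
    (hx : x ∉ E.image g) (hx' : x + g (p v) ∉ E.image g) :
    Lab p r (insert v' (insert v E)) (Function.update (Function.update g v x) v' (x + g (p v))) := by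
  obtain ⟨hg0, hginj, hgim⟩ := h
  have hδ0 : g (p v) ≠ 0 := by
    intro h0
    exact hpvr (hginj hpvE hr (by rw [h0, hg0]))
  have hxne : x ≠ x + g (p v) := by
    intro h
    apply hδ0
    have : x + 0 = x + g (p v) := by rw [add_zero]; exact h
    exact (add_left_cancel this).symm
  obtain ⟨g', hg'⟩ : ∃ g' : V → J,
      g' = Function.update (Function.update g v x) v' (x + g (p v)) := ⟨_, rfl⟩
  rw [← hg']
  have hgv' : g' v' = x + g (p v) := by rw [hg', Function.update_self]
  have hgv : g' v = x := by rw [hg', Function.update_of_ne hne, Function.update_self]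
  have hgE : ∀ u ∈ E, g' u = g u := by
    intro u hu
    rw [hg', Function.update_of_ne (fun h : u = v' => hv' (h ▸ hu)),
      Function.update_of_ne (fun h : u = v => hv (h ▸ hu))]
  have himgE : E.image g' = E.image g := image_congr (fun u hu => hgE u hu)
  have himg : (insert v' (insert v E)).image g' =
      insert (x + g (p v)) (insert x (E.image g)) := by
    rw [image_insert, image_insert, hgv', hgv, himgE]
  refine ⟨by rw [hgE r hr]; exact hg0, ?_, ?_⟩
  · have hnv : ∀ b ∈ E, g' b ≠ x := by
      intro b hb h; rw [hgE b hb] at h; exact hx (mem_image.2 ⟨b, hb, h⟩)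
    have hnv' : ∀ b ∈ E, g' b ≠ x + g (p v) := by
      intro b hb h; rw [hgE b hb] at h; exact hx' (mem_image.2 ⟨b, hb, h⟩)
    intro a ha b hb hab
    simp only [coe_insert, Set.mem_insert_iff, mem_coe] at ha hb
    rcases ha with rfl | rfl | ha
    · rcases hb with rfl | rfl | hb
      · rfl
      · rw [hgv', hgv] at hab; exact (hxne hab.symm).elim
      · rw [hgv'] at hab; exact (hnv' b hb hab.symm).elim
    · rcases hb with rfl | rfl | hb
      · rw [hgv', hgv] at hab; exact (hxne hab).elim
      · rfl
      · rw [hgv] at hab; exact (hnv b hb hab.symm).elim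
    · rcases hb with rfl | rfl | hb
      · rw [hgv'] at hab; exact (hnv' a ha hab).elim
      · rw [hgv] at hab; exact (hnv a ha hab).elim
      · rw [hgE a ha, hgE b hb] at hab
        exact hginj ha hb hab
  · rw [himg, image_insert, image_insert]
    have e1 : g' v' + g' (p v') = x := by
      rw [hgv', hpp, hgE _ hpvE, add_assoc, hJ, add_zero]
    have e2 : g' v + g' (p v) = x + g (p v) := by
      rw [hgv, hgE _ hpvE]
    have e3 : E.image (fun u => g' u + g' (p u)) = E.image g := by
      rw [← hgim]
      apply image_congr
      intro u hu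
      simp only [hgE u hu, hgE (p u) (hpE u hu)]
    simp only [e1, e2, e3]
    exact Finset.insert_comm _ _ _

end Pool.Agent.H60.FN
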