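import Mathlib
import Pool.Agent.H60.FN.Add

/-!
# FNBatch: pairs of children of one vertex `u` with prescribed labels

`K` gets the labels `Q`, `K'` gets the labels `Q + g u`.

Proof.  Induction on `m`, generalising `E`, `K`, `K'`, `Q`, `g`.  `m = 0`: all empty, `g2 = g`
(`E ∪ ∅ ∪ ∅ = E`).  `m + 1`: pick `v ∈ K`, `v' ∈ K'`, `y ∈ Q`.  `lab_add_two` with `x = y`
(`p v = u ∈ E`, `u ≠ r`) gives `Lab p r E1 g1`, `E1 = insert v' (insert v E)`,
`g1 = update (update g v y) v' (y + g u)`.
`E1` is closed under `p`.  Apply the induction hypothesis to `E1`, `K.erase v`, `K'.erase v'`,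
`Q.erase y`, `g1`: `g1 u = g u` as `u ∈ E` and `v, v' ∉ E`.  For `y1 ∈ Q`, `y1 ≠ y`:
`y1 ∉ E1.image g1 = E.image g ∪ {y, y + g u}`: `y1 ≠ y + g u` because `y + g u ∉ Q`.
`y1 + g u ∉ E1.image g1`: `y1 + g u ≠ y` since `y1 + g u ∉ Q`, and `y1 + g u ≠ y + g u`.
Then `E1 ∪ K.erase v ∪ K'.erase v' = E ∪ K ∪ K'` (as sets), `K.image g2 = insert (g2 v) ((K.erase v).image g2)
= insert y (Q.erase y) = Q` (`g2 v = g1 v = y` as `v ∈ E1`), and similarly for `K'`.
-/

set_option autoImplicit false

open Finset

namespace Pool.Agent.H60.FN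

open Pool.Agent.H57.SS

theorem lab_batch {V J : Type*} [DecidableEq V] [AddCommGroup J] [DecidableEq J]
    (hJ : ∀ x : J, x + x = 0) {p : V → V} {r : V} {u : V} (hur : u ≠ r) (m : ℕ) :
    ∀ (E K K' : Finset V) (Q : Finset J) (g : V → J), r ∈ E → (∀ v ∈ E, p v ∈ E) → u ∈ E →
      Lab p r E g → K.card = m → K'.card = m → Q.card = m → Disjoint E K → Disjoint E K' →
      Disjoint K K' → (∀ v ∈ K, p v = u) → (∀ v ∈ K', p v = u) →
      (∀ y ∈ Q, y ∉ E.image g ∧ y + g u ∉ E.image g ∧ y + g u ∉ Q) →
      ∃ g2 : V → J, (∀ v ∈ E, g2 v = g v) ∧ Lab p r (E ∪ K ∪ K') g2 ∧ K.image g2 = Q ∧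
        K'.image g2 = Q.image (fun y => y + g u) := by
  intro E K K' Q g hr hpE huE h hK hK' hQc dK dK' dKK pK pK' hQ
  induction m generalizing E K K' Q g with
  | zero =>
    rw [card_eq_zero] at hK hK' hQc
    subst hK hK' hQc
    refine ⟨g, fun v _ => rfl, ?_, ?_, ?_⟩
    · rw [union_empty, union_empty]
      exact h
    · rw [image_empty]
    · rw [image_empty, image_empty]
  | succ m ih =>
    obtain ⟨v, hv⟩ : K.Nonempty := card_pos.1 (by omega)
    obtain ⟨v', hv'⟩ : K'.Nonempty := card_pos.1 (by omega)
    obtain ⟨y, hy⟩ : Q.Nonempty := card_pos.1 (by omega)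
    have hvE : v ∉ E := fun hh => disjoint_left.1 dK hh hv
    have hvE' : v' ∉ E := fun hh => disjoint_left.1 dK' hh hv'
    have hne : v ≠ v' := fun hh => disjoint_left.1 dKK hv (hh ▸ hv')
    obtain ⟨hy1, hy2, hy3⟩ := hQ y hy
    have huv : u ≠ v := fun hh => hvE (hh ▸ huE)
    have huv' : u ≠ v' := fun hh => hvE' (hh ▸ huE)
    have h1 := lab_add_two hJ hr hpE h hvE hvE' hne (by rw [pK v hv]; exact huE)
      (by rw [pK v hv]; exact hur) (by rw [pK v hv, pK' v' hv']) hy1 (by rw [pK v hv]; exact hy2)
    rw [pK v hv] at h1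
    obtain ⟨g1, hg1⟩ : ∃ g1 : V → J, g1 = Function.update (Function.update g v y) v' (y + g u) := ⟨_, rfl⟩
    rw [← hg1] at h1
    have gv' : g1 v' = y + g u := by rw [hg1, Function.update_self]
    have gv : g1 v = y := by rw [hg1, Function.update_of_ne hne, Function.update_self]
    have gE : ∀ w ∈ E, g1 w = g w := by
      intro w hw
      rw [hg1, Function.update_of_ne (fun hh : w = v' => hvE' (hh ▸ hw)),
        Function.update_of_ne (fun hh : w = v => hvE (hh ▸ hw))]
    have gu : g1 u = g u := gE u huE
    have him : (insert v' (insert v E)).image g1 = insert (y + g u) (insert y (E.image g)) := by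
      rw [image_insert, image_insert, gv', gv]
      congr 2
      exact image_congr (fun w hw => gE w hw)
    obtain ⟨g2, e1, e2, e3, e4⟩ := ih (insert v' (insert v E)) (K.erase v) (K'.erase v') (Q.erase y) g1
      (mem_insert_of_mem (mem_insert_of_mem hr))
      (by
        intro w hw
        rcases mem_insert.1 hw with rfl | hw
        · rw [pK' _ hv']
          exact mem_insert_of_mem (mem_insert_of_mem huE)
        · rcases mem_insert.1 hw with rfl | hw
          · rw [pK _ hv]
            exact mem_insert_of_mem (mem_insert_of_mem huE)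
          · exact mem_insert_of_mem (mem_insert_of_mem (hpE w hw)))
      (mem_insert_of_mem (mem_insert_of_mem huE)) h1
      (by rw [card_erase_of_mem hv, hK]; rfl) (by rw [card_erase_of_mem hv', hK']; rfl)
      (by rw [card_erase_of_mem hy, hQc]; rfl)
      (by
        rw [disjoint_left]
        intro w hw hwK
        have hwK' := mem_erase.1 hwK
        rcases mem_insert.1 hw with rfl | hw
        · exact disjoint_left.1 dKK hwK'.2 hv'
        · rcases mem_insert.1 hw with rfl | hw
          · exact hwK'.1 rfl
          · exact disjoint_left.1 dK hw hwK'.2)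
      (by
        rw [disjoint_left]
        intro w hw hwK
        have hwK' := mem_erase.1 hwK
        rcases mem_insert.1 hw with rfl | hw
        · exact hwK'.1 rfl
        · rcases mem_insert.1 hw with rfl | hw
          · exact disjoint_left.1 dKK hv hwK'.2
          · exact disjoint_left.1 dK' hw hwK'.2)
      (by
        rw [disjoint_left]
        intro w hw hwK
        exact disjoint_left.1 dKK (mem_of_mem_erase hw) (mem_of_mem_erase hwK))
      (fun w hw => pK w (mem_of_mem_erase hw)) (fun w hw => pK' w (mem_of_mem_erase hw))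
      (by
        intro y1 hy1'
        obtain ⟨hne1, hyQ⟩ := mem_erase.1 hy1'
        obtain ⟨a1, a2, a3⟩ := hQ y1 hyQ
        rw [him, gu]
        refine ⟨?_, ?_, fun hh => a3 (mem_of_mem_erase hh)⟩
        · intro hh
          rcases mem_insert.1 hh with hh | hh
          · exact hy3 (hh ▸ hyQ)
          · rcases mem_insert.1 hh with hh | hh
            · exact hne1 hh
            · exact a1 hh
        · intro hh
          rcases mem_insert.1 hh with hh | hh
          · exact hne1 (add_right_cancel hh)
          · rcases mem_insert.1 hh with hh | hh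
            · exact a3 (hh ▸ hy)
            · exact a2 hh)
    refine ⟨g2, fun w hw => ?_, ?_, ?_, ?_⟩
    · rw [e1 w (mem_insert_of_mem (mem_insert_of_mem hw)), gE w hw]
    · have hset : insert v' (insert v E) ∪ K.erase v ∪ K'.erase v' = E ∪ K ∪ K' := by
        ext w
        simp only [mem_union, mem_insert, mem_erase]
        by_cases hw : w = v
        · subst hw
          simp [hv]
        · by_cases hw' : w = v'
          · subst hw'
            simp [hv']
          · simp [hw, hw']
      rw [← hset]
      exact e2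
    · have hKi : K = insert v (K.erase v) := (insert_erase hv).symm
      rw [hKi, image_insert, e3, e1 v (mem_insert_of_mem (mem_insert_self v E)), gv, insert_erase hy]
    · have hKi : K' = insert v' (K'.erase v') := (insert_erase hv').symm
      have hQi : insert (y + g u) (image (fun y => y + g u) (Q.erase y)) = image (fun y => y + g u) Q := by
        rw [← image_insert (fun y => y + g u) y (Q.erase y), insert_erase hy]
      rw [hKi, image_insert, e4, e1 v' (mem_insert_self v' _), gv', gu, hQi]

end Pool.Agent.H60.FN
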