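import Mathlib

/-!
# FNGood: choice of a label by counting

Proof.  Let `B = univ.filter (χ · = 0)`, `2 * B.card = card J`.  The bad elements of `B` are
contained in the union of `U`, `Z`, `U` translated by `y`, `Z` translated by `y`
(total `<= 2 * U.card + 2 * Z.card`) and of `W = univ.filter (fun x => Zr.card < 2 * (Zr.filter (x + z ∈ U)).card)`.
Double counting: `∑ x, (Zr.filter (fun z => x + z ∈ U)).card = ∑ z ∈ Zr, (univ.filter (fun x => x + z ∈ U)).card
= Zr.card * U.card`.  Hence `W.card * Zr.card <= 2 * Zr.card * U.card` (for `x ∈ W` the term is more than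
`Zr.card / 2`); if `Zr` is nonempty `W.card <= 2 * U.card`, and if `Zr = ∅` then `W = ∅`.
Total `<= 4 * U.card + 2 * Z.card < card J / 2 = B.card` by `hcard`.
(The hypotheses on `χ` are only used through `hχ`.)
-/

set_option autoImplicit false

open Finset

namespace Pool.Agent.H60.FN

private theorem FNGood_dc {J : Type*} [AddCommGroup J] [DecidableEq J] [Fintype J]
    (hJ : ∀ x : J, x + x = 0) (U Zr : Finset J) :
    ∑ x : J, (Zr.filter (fun z => x + z ∈ U)).card = Zr.card * U.card := by
  classical
  have h1 : ∑ x : J, (Zr.filter (fun z => x + z ∈ U)).card =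
      ∑ z ∈ Zr, (univ.filter (fun x : J => x + z ∈ U)).card := by
    simp only [card_filter]
    rw [sum_comm]
  rw [h1]
  have h2 : ∀ z ∈ Zr, (univ.filter (fun x : J => x + z ∈ U)).card = U.card := by
    intro z _
    apply card_bij (fun x _ => x + z)
    · intro a ha
      exact (mem_filter.1 ha).2
    · intro a _ b _ hab
      exact add_right_cancel hab
    · intro b hb
      refine ⟨b + z, ?_, ?_⟩
      · rw [mem_filter]
        refine ⟨mem_univ _, ?_⟩
        rw [add_assoc, hJ z, add_zero]
        exact hb
      · rw [add_assoc, hJ z, add_zero]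
  rw [sum_congr rfl h2, sum_const, smul_eq_mul]

private theorem FNGood_tr {J : Type*} [AddCommGroup J] [DecidableEq J] [Fintype J]
    (U : Finset J) (y : J) :
    (univ.filter (fun x : J => x + y ∈ U)).card ≤ U.card := by
  classical
  apply card_le_card_of_injOn (fun x => x + y)
  · intro a ha
    exact (mem_filter.1 (mem_coe.1 ha)).2
  · intro a _ b _ hab
    exact add_right_cancel hab

theorem exists_good {J : Type*} [AddCommGroup J] [DecidableEq J] [Fintype J]
    (hJ : ∀ x : J, x + x = 0) (χ : J →+ ZMod 2)
    (hχ : 2 * (univ.filter (fun x : J => χ x = 0)).card = Fintype.card J) {U Z Zr : Finset J}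
    (hcard : 8 * U.card + 4 * Z.card < Fintype.card J) (y : J) :
    ∃ x : J, χ x = 0 ∧ x ∉ U ∧ x ∉ Z ∧ x + y ∉ U ∧ x + y ∉ Z ∧
      2 * (Zr.filter (fun z => x + z ∈ U)).card ≤ Zr.card := by
  classical
  set W : Finset J := univ.filter (fun x : J => Zr.card < 2 * (Zr.filter (fun z => x + z ∈ U)).card)
    with hW
  have hWc : W.card ≤ 2 * U.card := by
    rcases Nat.eq_zero_or_pos Zr.card with h0 | h0
    · have hZe : Zr = ∅ := card_eq_zero.1 h0
      have : W = ∅ := by
        apply filter_eq_empty_iff.2
        intro x _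
        rw [hZe]
        simp
      rw [this]
      simp
    · have h1 := FNGood_dc hJ U Zr
      have h2 : W.card * Zr.card ≤ 2 * (Zr.card * U.card) := by
        rw [← h1, mul_sum]
        calc W.card * Zr.card = ∑ _x ∈ W, Zr.card := by rw [sum_const, smul_eq_mul]
          _ ≤ ∑ x ∈ W, 2 * (Zr.filter (fun z => x + z ∈ U)).card := by
              apply sum_le_sum
              intro x hx
              exact ((mem_filter.1 hx).2).le
          _ ≤ ∑ x : J, 2 * (Zr.filter (fun z => x + z ∈ U)).card :=
              sum_le_sum_of_subset (subset_univ _)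
      have h3 : W.card * Zr.card ≤ (2 * U.card) * Zr.card := by
        calc W.card * Zr.card ≤ 2 * (Zr.card * U.card) := h2
          _ = (2 * U.card) * Zr.card := by ring
      exact Nat.le_of_mul_le_mul_right h3 h0
  by_contra hcon
  push Not at hcon
  have hsub : univ.filter (fun x : J => χ x = 0) ⊆
      ((((U ∪ Z) ∪ univ.filter (fun x : J => x + y ∈ U)) ∪ univ.filter (fun x : J => x + y ∈ Z))
        ∪ W) := by
    intro x hx
    have hx0 : χ x = 0 := (mem_filter.1 hx).2
    simp only [mem_union, mem_filter, mem_univ, true_and]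
    by_contra hne
    push Not at hne
    obtain ⟨⟨⟨⟨h1, h2⟩, h3⟩, h4⟩, h5⟩ := hne
    have h6 := hcon x hx0 h1 h2 h3 h4
    apply h5
    rw [hW, mem_filter]
    exact ⟨mem_univ _, h6⟩
  have hc := card_le_card hsub
  have hc2 := card_union_le
    (((U ∪ Z) ∪ univ.filter (fun x : J => x + y ∈ U)) ∪ univ.filter (fun x : J => x + y ∈ Z)) W
  have hc3 := card_union_le
    ((U ∪ Z) ∪ univ.filter (fun x : J => x + y ∈ U)) (univ.filter (fun x : J => x + y ∈ Z))
  have hc4 := card_union_le (U ∪ Z) (univ.filter (fun x : J => x + y ∈ U))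
  have hc5 := card_union_le U Z
  have hc6 := FNGood_tr U y
  have hc7 := FNGood_tr Z y
  omega

end Pool.Agent.H60.FN
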