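import Mathlib
import Pool.Agent.H60.FN.Add

/-!
# FNExt: greedy extension of a labelling from a closed set `E'` to a closed set `E`

`R` is a set of labels closed under addition, `F` a set of forbidden labels.

Proof.  Induction on `(E \ E').card` (generalise `E'`, `g`).  If `E ⊆ E'` then `E' = E`, take
`g2 = g`.  Otherwise choose `v ∈ E \ E'` with `d v` minimal.  `v ≠ r` (as `r ∈ E'`).  `p v ∈ E'`,
because `p v ∈ E` (`hE.parent`) and `d (p v) < d v`.
* If `p v = r`: choose `x ∈ R`, `x ∉ E'.image g`, `x ∉ F`: possible since
  `E'.card + F.card < E.card + F.card <= R.card`.  `lab_add_one` gives `Lab` for `insert v E'`, which is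
  closed (fibres over `w ≠ r` do not change), apply the induction hypothesis.
* If `p v ≠ r`: the fibres of `p v` in `E` and in `E'` are even, so there is `v' ∈ E \ E'`, `v' ≠ v`,
  `p v' = p v` (`(E \ E').filter (p · = p v)` has even cardinality and contains `v`).  `v' ≠ r` and
  `v, v'` are not in `E'`.  Put `y = g (p v) ∈ R`.  Choose `x ∈ R` with `x ∉ E'.image g`, `x ∉ F`,
  `x + y ∉ E'.image g`, `x + y ∉ F`: the excluded `x` are in a union of four sets (two of them
  translated by `y`) of total cardinality `2 * (E'.card + F.card) < 2 * (E.card + F.card) <= R.card`.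
  `x + y ∈ R` by `hR`.  `lab_add_two`; the new set is closed (the fibre of `p v` grows by two;
  nothing in `E'` has parent `v` or `v'` is irrelevant).  Apply the induction hypothesis.
The final `g2` agrees with `g` on `E'` since both updates are at points outside `E'`.
-/

set_option autoImplicit false

open Finset

namespace Pool.Agent.H60.FN

open Pool.Agent.H57.SS

private theorem FNExt_closed_one {V : Type*} [DecidableEq V] {p : V → V} {r : V} {E : Finset V}
    (h : Closed p r E) {v : V} (hpv : p v = r) : Closed p r (insert v E) := by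
  refine ⟨mem_insert_of_mem h.root, ?_, ?_⟩
  · intro u hu
    rcases mem_insert.1 hu with rfl | hu
    · rw [hpv]
      exact mem_insert_of_mem h.root
    · exact mem_insert_of_mem (h.parent u hu)
  · intro w hw
    rw [filter_insert, if_neg (by rw [hpv]; exact fun h => hw h.symm)]
    exact h.even w hw

private theorem FNExt_closed_two {V : Type*} [DecidableEq V] {p : V → V} {r : V} {E : Finset V}
    (h : Closed p r E) {v v' : V} (hv : v ∉ E) (hv' : v' ∉ E) (hne : v ≠ v') (hpvE : p v ∈ E)
    (hpp : p v' = p v) : Closed p r (insert v' (insert v E)) := by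
  refine ⟨mem_insert_of_mem (mem_insert_of_mem h.root), ?_, ?_⟩
  · intro u hu
    rcases mem_insert.1 hu with rfl | hu
    · rw [hpp]
      exact mem_insert_of_mem (mem_insert_of_mem hpvE)
    · rcases mem_insert.1 hu with rfl | hu
      · exact mem_insert_of_mem (mem_insert_of_mem hpvE)
      · exact mem_insert_of_mem (mem_insert_of_mem (h.parent u hu))
  · intro w hw
    by_cases hwv : p v = w
    · rw [filter_insert, if_pos (by rw [hpp]; exact hwv), filter_insert, if_pos hwv,
        card_insert_of_notMem, card_insert_of_notMem]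
      · have := h.even w hw
        rw [add_assoc]
        exact this.add (by decide)
      · intro h1
        exact hv (mem_filter.1 h1).1
      · intro h1
        rcases mem_insert.1 h1 with h2 | h2
        · exact hne h2.symm
        · exact hv' (mem_filter.1 h2).1
    · rw [filter_insert, if_neg (by rw [hpp]; exact hwv), filter_insert, if_neg hwv]
      exact h.even w hw

private theorem FNExt_sibling {V : Type*} [DecidableEq V] {p : V → V} {r : V} {E E' : Finset V}
    (hE : Closed p r E) (hE' : Closed p r E') (hsub : E' ⊆ E) {v : V} (hv : v ∈ E) (hvE : v ∉ E')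
    (hpv : p v ≠ r) : ∃ v' ∈ E, v' ∉ E' ∧ v' ≠ v ∧ p v' = p v := by
  have h1 : ((E \ E').filter (fun u => p u = p v)) =
      E.filter (fun u => p u = p v) \ E'.filter (fun u => p u = p v) := by
    ext u
    simp only [mem_filter, mem_sdiff]
    tauto
  have h2 : (E'.filter (fun u => p u = p v)) ⊆ E.filter (fun u => p u = p v) :=
    filter_subset_filter _ hsub
  have h3 : Even ((E \ E').filter (fun u => p u = p v)).card := by
    rw [h1, card_sdiff_of_subset h2]
    have h4 := card_le_card h2
    exact (Nat.even_sub h4).2 (iff_of_true (hE.even _ hpv) (hE'.even _ hpv))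
  have h5 : v ∈ (E \ E').filter (fun u => p u = p v) :=
    mem_filter.2 ⟨mem_sdiff.2 ⟨hv, hvE⟩, rfl⟩
  have h6 : 1 < ((E \ E').filter (fun u => p u = p v)).card := by
    have h7 : 0 < ((E \ E').filter (fun u => p u = p v)).card := card_pos.2 ⟨v, h5⟩
    obtain ⟨k, hk⟩ := h3
    omega
  obtain ⟨v', h8, h9⟩ := exists_mem_ne h6 v
  obtain ⟨h10, h11⟩ := mem_filter.1 h8
  obtain ⟨h12, h13⟩ := mem_sdiff.1 h10
  exact ⟨v', h12, h13, h9, h11⟩

private theorem FNExt_aux {V J : Type*} [DecidableEq V] [AddCommGroup J] [DecidableEq J]
    (hJ : ∀ x : J, x + x = 0) {p : V → V} {r : V} {d : V → ℕ}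
    (hd : ∀ v, v ≠ r → d v = d (p v) + 1) {E : Finset V} (hE : Closed p r E)
    {R F : Finset J} (hR : ∀ x ∈ R, ∀ y ∈ R, x + y ∈ R)
    (hcard : 2 * (E.card + F.card) ≤ R.card) :
    ∀ (n : ℕ) (E' : Finset V) (g : V → J), (E \ E').card = n → Closed p r E' → E' ⊆ E →
      Lab p r E' g → (∀ v ∈ E', g v ∈ R) →
      ∃ g2 : V → J, (∀ v ∈ E', g2 v = g v) ∧ Lab p r E g2 ∧ (∀ v ∈ E, g2 v ∈ R) ∧
        ∀ v ∈ E, v ∉ E' → g2 v ∉ F := by
  intro n
  induction n using Nat.strong_induction_on with
  | _ n ih =>
    intro E' g hn hE' hsub hg hgR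
    by_cases hEE : E ⊆ E'
    · have h1 : E' = E := Subset.antisymm hsub hEE
      subst h1
      exact ⟨g, fun _ _ => rfl, hg, hgR, fun v hv hv' => absurd hv hv'⟩
    have hne : (E \ E').Nonempty := by
      rw [sdiff_nonempty]
      exact hEE
    obtain ⟨v, hvm, hmin⟩ := exists_min_image (E \ E') d hne
    obtain ⟨hvE, hvE'⟩ := mem_sdiff.1 hvm
    have hvr : v ≠ r := fun h => hvE' (h ▸ hE'.root)
    have hpvE : p v ∈ E' := by
      by_contra h1
      have h2 := hmin (p v) (mem_sdiff.2 ⟨hE.parent v hvE, h1⟩)
      have h3 := hd v hvr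
      omega
    have hlt : E'.card < E.card := card_lt_card ⟨hsub, hEE⟩
    have himg : (E'.image g ∪ F).card ≤ E'.card + F.card :=
      (card_union_le _ _).trans (Nat.add_le_add_right card_image_le _)
    by_cases hpv : p v = r
    · obtain ⟨x, hxR, hx⟩ := exists_mem_notMem_of_card_lt_card
        (show (E'.image g ∪ F).card < R.card by omega)
      rw [mem_union, not_or] at hx
      have hlab := lab_add_one hE'.root hE'.parent hg hvE' hpv hx.1
      have hcl := FNExt_closed_one hE' hpv
      have hsub2 : insert v E' ⊆ E := insert_subset hvE hsub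
      have hcd : (E \ insert v E').card < n := by
        rw [← hn]
        apply card_lt_card
        refine ⟨sdiff_subset_sdiff (Subset.refl _) (subset_insert _ _), fun h1 => ?_⟩
        exact (mem_sdiff.1 (h1 hvm)).2 (mem_insert_self _ _)
      have hR2 : ∀ u ∈ insert v E', Function.update g v x u ∈ R := by
        intro u hu
        by_cases huv : u = v
        · subst huv
          rw [Function.update_self]
          exact hxR
        · rw [Function.update_of_ne huv]
          exact hgR u ((mem_insert.1 hu).resolve_left huv)
      obtain ⟨g2, h1, h2, h3, h4⟩ := ih _ hcd (insert v E') _ rfl hcl hsub2 hlab hR2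
      refine ⟨g2, ?_, h2, h3, ?_⟩
      · intro u hu
        rw [h1 u (mem_insert_of_mem hu), Function.update_of_ne (show u ≠ v from fun h => hvE' (h ▸ hu))]
      · intro u hu hu'
        by_cases huv : u = v
        · subst huv
          rw [h1 u (mem_insert_self _ _), Function.update_self]
          exact hx.2
        · exact h4 u hu (fun h => (mem_insert.1 h).elim huv hu')
    · obtain ⟨v', hv'E, hv'E', hv'v, hpp⟩ := FNExt_sibling hE hE' hsub hvE hvE' hpv
      have hyR : g (p v) ∈ R := hgR _ hpvE
      have hcB : ((E'.image g ∪ F) ∪ (E'.image g ∪ F).image (fun z => z + g (p v))).card <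
          R.card := by
        have h1 := card_union_le (E'.image g ∪ F)
          ((E'.image g ∪ F).image (fun z => z + g (p v)))
        have h2 : ((E'.image g ∪ F).image (fun z => z + g (p v))).card ≤
            (E'.image g ∪ F).card := card_image_le
        omega
      obtain ⟨x, hxR, hx⟩ := exists_mem_notMem_of_card_lt_card hcB
      rw [mem_union, not_or] at hx
      obtain ⟨hx1, hx2⟩ := hx
      have hx3 : x + g (p v) ∉ E'.image g ∪ F := by
        intro h1
        apply hx2
        refine mem_image.2 ⟨_, h1, ?_⟩
        rw [add_assoc, hJ, add_zero]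
      rw [mem_union, not_or] at hx1 hx3
      have hlab := lab_add_two hJ hE'.root hE'.parent hg hvE' hv'E' (Ne.symm hv'v) hpvE hpv hpp
        hx1.1 hx3.1
      have hcl := FNExt_closed_two hE' hvE' hv'E' (Ne.symm hv'v) hpvE hpp
      have hsub2 : insert v' (insert v E') ⊆ E := insert_subset hv'E (insert_subset hvE hsub)
      have hcd : (E \ insert v' (insert v E')).card < n := by
        rw [← hn]
        apply card_lt_card
        refine ⟨sdiff_subset_sdiff (Subset.refl _)
          ((subset_insert _ _).trans (subset_insert _ _)), fun h1 => ?_⟩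
        exact (mem_sdiff.1 (h1 hvm)).2 (mem_insert_of_mem (mem_insert_self _ _))
      have hval : ∀ u ∈ E', Function.update (Function.update g v x) v' (x + g (p v)) u = g u := by
        intro u hu
        rw [Function.update_of_ne (show u ≠ v' from fun h => hv'E' (h ▸ hu)),
          Function.update_of_ne (show u ≠ v from fun h => hvE' (h ▸ hu))]
      have hvalv : Function.update (Function.update g v x) v' (x + g (p v)) v = x := by
        rw [Function.update_of_ne (Ne.symm hv'v), Function.update_self]
      have hvalv' : Function.update (Function.update g v x) v' (x + g (p v)) v' = x + g (p v) := by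
        rw [Function.update_self]
      have hR2 : ∀ u ∈ insert v' (insert v E'),
          Function.update (Function.update g v x) v' (x + g (p v)) u ∈ R := by
        intro u hu
        rcases mem_insert.1 hu with h1 | h1
        · rw [h1, hvalv']
          exact hR x hxR _ hyR
        · rcases mem_insert.1 h1 with h2 | h2
          · rw [h2, hvalv]
            exact hxR
          · rw [hval u h2]
            exact hgR u h2
      obtain ⟨g2, h1, h2, h3, h4⟩ := ih _ hcd (insert v' (insert v E')) _ rfl hcl hsub2 hlab hR2
      refine ⟨g2, ?_, h2, h3, ?_⟩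
      · intro u hu
        rw [h1 u (mem_insert_of_mem (mem_insert_of_mem hu)), hval u hu]
      · intro u hu hu'
        by_cases huv : u = v
        · rw [huv, h1 v (mem_insert_of_mem (mem_insert_self _ _)), hvalv]
          exact hx1.2
        · by_cases huv' : u = v'
          · rw [huv', h1 v' (mem_insert_self _ _), hvalv']
            exact hx3.2
          · refine h4 u hu (fun h => ?_)
            rcases mem_insert.1 h with h5 | h5
            · exact huv' h5
            · rcases mem_insert.1 h5 with h6 | h6
              · exact huv h6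
              · exact hu' h6

theorem lab_extend {V J : Type*} [DecidableEq V] [AddCommGroup J] [DecidableEq J]
    (hJ : ∀ x : J, x + x = 0) {p : V → V} {r : V} {d : V → ℕ}
    (hd : ∀ v, v ≠ r → d v = d (p v) + 1) {E E' : Finset V} (hE : Closed p r E)
    (hE' : Closed p r E') (hsub : E' ⊆ E) {R F : Finset J} (hR : ∀ x ∈ R, ∀ y ∈ R, x + y ∈ R)
    {g : V → J} (hg : Lab p r E' g) (hgR : ∀ v ∈ E', g v ∈ R)
    (hcard : 2 * (E.card + F.card) ≤ R.card) :
    ∃ g2 : V → J, (∀ v ∈ E', g2 v = g v) ∧ Lab p r E g2 ∧ (∀ v ∈ E, g2 v ∈ R) ∧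
      ∀ v ∈ E, v ∉ E' → g2 v ∉ F := by
  exact FNExt_aux hJ hd hE hR hcard _ E' g rfl hE' hsub hg hgR

end Pool.Agent.H60.FN
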