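import Mathlib
import Pool.Agent.H60.FN.Ext

/-!
# FNStep: simple steps of the induction

Proof.
`fnd_extend`: `lab_extend` with `R = univ`, `F = ∅`; for `z ∈ Z`, `z ≠ 0` the vertex `v ∈ E' ∩ H` with
`g v = z` is in `E ∩ H` and `g2 v = g v`.
`unf_extend`: `lab_extend` with `R = univ.filter (fun x => χ x = 0)`, `F = Z`
(`2 * (E.card + Z.card) <= R.card` since `2 * R.card = card J > 8 * E.card + 4 * Z.card`).  New vertices
have labels outside `Z`.  `E ∩ H = E' ∩ H` by `hH`; the filter does not change.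
`unf_root_child`: if there is `z ∈ Z` with `z ∉ E'.image g`, take `lab_add_one` with `x = z`:
`insert v E'` is in the unfinished state: `(E ∩ H).card = (E' ∩ H).card + 1` and the filtered set has
one element more (`v`, label `z`).  Otherwise all `z ∈ Z` are in `E'.image g`; for `z ≠ 0` the vertex
`w ∈ E'` with `g w = z` is not `r` (`g r = 0`), so it is in `H`: `Fnd E'`, then `fnd_extend`
(`insert v E'` is closed, as `E` is: the hypothesis `hE`).
-/

set_option autoImplicit false

open Finset

namespace Pool.Agent.H60.FN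

open Pool.Agent.H57.SS

section

variable {V J : Type*} [DecidableEq V] [AddCommGroup J] [DecidableEq J] [Fintype J]

theorem fnd_extend (hJ : ∀ x : J, x + x = 0) {p : V → V} {r : V} {d : V → ℕ}
    (hd : ∀ v, v ≠ r → d v = d (p v) + 1) {Z : Finset J} {H E E' : Finset V} (hE : Closed p r E)
    (hE' : Closed p r E') (hsub : E' ⊆ E) (hcard : 2 * E.card ≤ Fintype.card J)
    (h : Fnd p r Z H E') : Fnd p r Z H E := by
  obtain ⟨g, hg, hz⟩ := h
  obtain ⟨g2, h1, h2, -, -⟩ := lab_extend hJ hd hE hE' hsub (R := univ) (F := ∅)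
    (fun _ _ _ _ => mem_univ _) hg (fun _ _ => mem_univ _)
    (by rw [card_empty, add_zero, card_univ]; exact hcard)
  refine ⟨g2, h2, fun z hzZ hz0 => ?_⟩
  obtain ⟨v, hv, hgv⟩ := hz z hzZ hz0
  rw [mem_inter] at hv
  exact ⟨v, mem_inter.2 ⟨hsub hv.1, hv.2⟩, (h1 v hv.1).trans hgv⟩

theorem unf_extend (hJ : ∀ x : J, x + x = 0) {p : V → V} {r : V} {d : V → ℕ}
    (hd : ∀ v, v ≠ r → d v = d (p v) + 1) (χ : J →+ ZMod 2)
    (hχ : 2 * (univ.filter (fun x : J => χ x = 0)).card = Fintype.card J) {Z : Finset J}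
    {H E E' : Finset V} (hE : Closed p r E) (hE' : Closed p r E') (hsub : E' ⊆ E)
    (hH : E ∩ H ⊆ E') (hcard : 8 * E.card + 4 * Z.card < Fintype.card J)
    (h : Unf p r χ Z H E') : Unf p r χ Z H E := by
  obtain ⟨g, hg, hχg, hZg, hc⟩ := h
  obtain ⟨g2, h1, h2, h3, h4⟩ := lab_extend hJ hd hE hE' hsub
    (R := univ.filter (fun x : J => χ x = 0)) (F := Z)
    (by
      intro x hx y hy
      simp only [mem_filter, mem_univ, true_and] at hx hy ⊢
      rw [map_add, hx, hy, add_zero])
    hg
    (by
      intro v hv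
      simp only [mem_filter, mem_univ, true_and]
      exact hχg v hv)
    (by omega)
  have hEH : E ∩ H = E' ∩ H := by
    apply Subset.antisymm
    · intro v hv
      exact mem_inter.2 ⟨hH hv, (mem_inter.1 hv).2⟩
    · intro v hv
      rw [mem_inter] at hv
      exact mem_inter.2 ⟨hsub hv.1, hv.2⟩
  have hfil : (E ∩ H).filter (fun v => g2 v ∈ Z) = (E' ∩ H).filter (fun v => g v ∈ Z) := by
    rw [hEH]
    apply filter_congr
    intro v hv
    rw [h1 v (mem_inter.1 hv).1]
  refine ⟨g2, h2, ?_, ?_, ?_⟩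
  · intro v hv
    have := h3 v hv
    simpa only [mem_filter, mem_univ, true_and] using this
  · intro v hv hvZ
    by_cases hvE : v ∈ E'
    · rw [h1 v hvE] at hvZ
      exact hZg v hvE hvZ
    · exact absurd hvZ (h4 v hv hvE)
  · rw [hfil, hEH]
    exact hc

theorem unf_root_child (hJ : ∀ x : J, x + x = 0) {p : V → V} {r : V} {d : V → ℕ}
    (hd : ∀ v, v ≠ r → d v = d (p v) + 1) (χ : J →+ ZMod 2) {Z : Finset J}
    (hZχ : ∀ z ∈ Z, χ z = 0) {H E E' : Finset V} (hE : Closed p r E) (hE' : Closed p r E') {v : V}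
    (hv : v ∉ E') (hEv : E = insert v E') (hpv : p v = r) (hvH : v ∈ H)
    (hcard : 8 * E.card + 4 * Z.card < Fintype.card J)
    (h : Unf p r χ Z H E') : Unf p r χ Z H E ∨ Fnd p r Z H E := by
  have hsub : E' ⊆ E := by rw [hEv]; exact subset_insert _ _
  obtain ⟨g, hg, hχg, hZg, hc⟩ := h
  by_cases hex : ∃ z ∈ Z, z ∉ E'.image g
  · obtain ⟨z, hzZ, hz⟩ := hex
    have hlab := lab_add_one hE'.root hE'.parent hg hv hpv hz
    left
    have hup : ∀ u ∈ E', Function.update g v z u = g u := by
      intro u hu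
      have hne : u ≠ v := fun e => hv (e ▸ hu)
      exact Function.update_of_ne hne _ _
    have hvv : Function.update g v z v = z := Function.update_self _ _ _
    refine ⟨Function.update g v z, by rw [hEv]; exact hlab, ?_, ?_, ?_⟩
    · intro u hu
      rw [hEv, mem_insert] at hu
      rcases hu with rfl | hu
      · rw [hvv]; exact hZχ z hzZ
      · rw [hup u hu]; exact hχg u hu
    · intro u hu huZ
      rw [hEv, mem_insert] at hu
      rcases hu with rfl | hu
      · exact Or.inr hvH
      · rw [hup u hu] at huZ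
        exact hZg u hu huZ
    · have e1 : E ∩ H = insert v (E' ∩ H) := by
        rw [hEv, insert_inter_of_mem hvH]
      have hvn : v ∉ E' ∩ H := fun h => hv (mem_inter.1 h).1
      have e2 : (insert v (E' ∩ H)).filter (fun u => Function.update g v z u ∈ Z) =
          insert v ((E' ∩ H).filter (fun u => g u ∈ Z)) := by
        rw [filter_insert, if_pos (by rw [hvv]; exact hzZ)]
        congr 1
        apply filter_congr
        intro u hu
        rw [hup u (mem_inter.1 hu).1]
      rw [e1, e2, card_insert_of_notMem hvn, card_insert_of_notMem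
        (fun h => hvn (mem_filter.1 h).1)]
      omega
  · right
    push Not at hex
    refine fnd_extend hJ hd hE hE' hsub (by omega) ⟨g, hg, fun z hzZ hz0 => ?_⟩
    obtain ⟨w, hw, hgw⟩ := mem_image.1 (hex z hzZ)
    have hwr : w ≠ r := by
      intro e
      apply hz0
      rw [← hgw, e, hg.root]
    rcases hZg w hw (by rw [hgw]; exact hzZ) with h | h
    · exact absurd h hwr
    · exact ⟨w, mem_inter.2 ⟨hw, h⟩, hgw⟩

end

end Pool.Agent.H60.FN
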