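import Mathlib
import Pool.Agent.H60.FN.Step
import Pool.Agent.H60.FN.Batch
import Pool.Agent.H60.FN.Good

/-!
# FNBStep: the batch step

`u` is a vertex, `u'` a sibling of `u` (or `u' = u` if the parent of `u` is the root); `E'` contains
the parent of `u`, but neither `u`, `u'` nor children of `u`, `u'`.
-/

set_option autoImplicit false

open Finset

namespace Pool.Agent.H60.FN

open Pool.Agent.H57.SS

section

variable {V J : Type*} [DecidableEq V] [AddCommGroup J] [DecidableEq J] [Fintype J]

omit [Fintype J] in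
theorem lab_pair (hJ : ∀ x : J, x + x = 0) {p : V → V} {r : V} {E' : Finset V} {g : V → J}
    (hr : r ∈ E') (hpE : ∀ w ∈ E', p w ∈ E') (h : Lab p r E' g) {u u' : V} (hu : u ∉ E')
    (hu' : u' ∉ E') (hpu : p u ∈ E') (hpp : p u' = p u)
    (hcase : (u' = u ∧ p u = r) ∨ (u' ≠ u ∧ p u ≠ r)) {x : J} (hx : x ∉ E'.image g)
    (hx' : x + g (p u) ∉ E'.image g) :
    ∃ g1 : V → J, (∀ v ∈ E', g1 v = g v) ∧ g1 u = x ∧ g1 u' = x + g (p u) ∧
      Lab p r (insert u' (insert u E')) g1 := by
  rcases hcase with ⟨huu, hpr⟩ | ⟨huu, hpr⟩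
  · subst huu
    refine ⟨Function.update g u' x, ?_, ?_, ?_, ?_⟩
    · intro v hv
      exact Function.update_of_ne (fun h1 : v = u' => hu (h1 ▸ hv)) _ _
    · exact Function.update_self _ _ _
    · rw [Function.update_self, hpr, h.root, add_zero]
    · rw [insert_idem]
      exact lab_add_one hr hpE h hu hpr hx
  · refine ⟨Function.update (Function.update g u x) u' (x + g (p u)), ?_, ?_, ?_, ?_⟩
    · intro v hv
      rw [Function.update_of_ne (fun h1 : v = u' => hu' (h1 ▸ hv)),
        Function.update_of_ne (fun h1 : v = u => hu (h1 ▸ hv))]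
    · rw [Function.update_of_ne huu.symm, Function.update_self]
    · exact Function.update_self _ _ _
    · exact lab_add_two hJ hr hpE h hu hu' huu.symm hpu hpr hpp hx hx'

omit [AddCommGroup J] [DecidableEq J] [Fintype J] in
private theorem BStep_choose {p : V → V} {r : V} {H E E' : Finset V} (hE : Closed p r E)
    (hE' : Closed p r E') (hsub : E' ⊆ E) {u u' : V} (huE : u ∈ E) (huE' : u' ∈ E)
    (hu : u ∉ E') (hu' : u' ∉ E') (hpu : p u ∈ E') (hpp : p u' = p u)
    (hcase : (u' = u ∧ p u = r) ∨ (u' ≠ u ∧ p u ≠ r)) (hch : ∀ v ∈ E', p v ≠ u) {q : ℕ}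
    (hq1 : q ≤ ((E ∩ H).filter (fun v => p v = u)).card)
    (hq2 : 2 * q ≤ (E.filter (fun v => p v = u)).card) :
    ∃ K K' : Finset V, K ⊆ (E ∩ H).filter (fun v => p v = u) ∧
      K' ⊆ E.filter (fun v => p v = u) ∧ K.card = q ∧ K'.card = q ∧ Disjoint K K' ∧
      Disjoint (insert u' (insert u E')) K ∧ Disjoint (insert u' (insert u E')) K' ∧
      Closed p r (insert u' (insert u E') ∪ K ∪ K') ∧ insert u' (insert u E') ∪ K ∪ K' ⊆ E := by
  have hpuu : p u ≠ u := fun h => hu (h ▸ hpu)
  obtain ⟨K, hKs, hKc⟩ := exists_subset_card_eq hq1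
  have hKE : K ⊆ E.filter (fun v => p v = u) := by
    intro v hv
    have h1 := mem_filter.1 (hKs hv)
    exact mem_filter.2 ⟨(mem_inter.1 h1.1).1, h1.2⟩
  have hq3 : q ≤ (E.filter (fun v => p v = u) \ K).card := by
    rw [card_sdiff_of_subset hKE]
    omega
  obtain ⟨K', hKs', hKc'⟩ := exists_subset_card_eq hq3
  have hKE' : K' ⊆ E.filter (fun v => p v = u) := hKs'.trans sdiff_subset
  have hdKK : Disjoint K K' := by
    rw [disjoint_left]
    intro v hv hv'
    exact (mem_sdiff.1 (hKs' hv')).2 hv
  have hE1 : ∀ v ∈ insert u' (insert u E'), p v ≠ u := by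
    intro v hv
    rw [mem_insert, mem_insert] at hv
    rcases hv with rfl | rfl | hv
    · rw [hpp]; exact hpuu
    · exact hpuu
    · exact hch v hv
  have hdis : ∀ L : Finset V, L ⊆ E.filter (fun v => p v = u) →
      Disjoint (insert u' (insert u E')) L := by
    intro L hL
    rw [disjoint_left]
    intro v hv hvL
    exact hE1 v hv (mem_filter.1 (hL hvL)).2
  refine ⟨K, K', hKs, hKE', hKc, hKc', hdKK, hdis K hKE, hdis K' hKE', ⟨?_, ?_, ?_⟩, ?_⟩
  · exact mem_union_left _ (mem_union_left _ (mem_insert_of_mem (mem_insert_of_mem hE'.root)))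
  · intro v hv
    have hu1 : u ∈ insert u' (insert u E') := mem_insert_of_mem (mem_insert_self _ _)
    rw [mem_union, mem_union] at hv
    rcases hv with (hv | hv) | hv
    · apply mem_union_left
      apply mem_union_left
      apply mem_insert_of_mem
      apply mem_insert_of_mem
      rw [mem_insert, mem_insert] at hv
      rcases hv with rfl | rfl | hv
      · rw [hpp]; exact hpu
      · exact hpu
      · exact hE'.parent v hv
    · rw [(mem_filter.1 (hKE hv)).2]
      exact mem_union_left _ (mem_union_left _ hu1)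
    · rw [(mem_filter.1 (hKE' hv)).2]
      exact mem_union_left _ (mem_union_left _ hu1)
  · intro w hw
    rw [filter_union, filter_union]
    by_cases hwu : w = u
    · subst hwu
      have h1 : (insert u' (insert w E')).filter (fun v => p v = w) = ∅ :=
        filter_eq_empty_iff.2 (fun v hv => hE1 v hv)
      have h2 : K.filter (fun v => p v = w) = K :=
        filter_eq_self.2 (fun v hv => (mem_filter.1 (hKE hv)).2)
      have h3 : K'.filter (fun v => p v = w) = K' :=
        filter_eq_self.2 (fun v hv => (mem_filter.1 (hKE' hv)).2)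
      rw [h1, h2, h3, empty_union, card_union_of_disjoint hdKK, hKc, hKc']
      exact ⟨q, rfl⟩
    · have h2 : K.filter (fun v => p v = w) = ∅ :=
        filter_eq_empty_iff.2 (fun v hv h => hwu (h.symm.trans (mem_filter.1 (hKE hv)).2))
      have h3 : K'.filter (fun v => p v = w) = ∅ :=
        filter_eq_empty_iff.2 (fun v hv h => hwu (h.symm.trans (mem_filter.1 (hKE' hv)).2))
      rw [h2, h3, union_empty, union_empty]
      by_cases hwp : p u = w
      · have hne : u' ≠ u := by
          rcases hcase with h | h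
          · exact absurd (hwp.symm.trans h.2) hw
          · exact h.1
        rw [filter_insert, if_pos (hpp.trans hwp), filter_insert, if_pos hwp,
          card_insert_of_notMem, card_insert_of_notMem]
        · obtain ⟨k, hk⟩ := hE'.even w hw
          exact ⟨k + 1, by rw [hk]; omega⟩
        · intro h
          exact hu (mem_filter.1 h).1
        · intro h
          rw [mem_insert] at h
          rcases h with h | h
          · exact hne h
          · exact hu' (mem_filter.1 h).1
      · rw [filter_insert, if_neg (fun h => hwp (hpp.symm.trans h)), filter_insert, if_neg hwp]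
        exact hE'.even w hw
  · intro v hv
    rw [mem_union, mem_union, mem_insert, mem_insert] at hv
    rcases hv with ((rfl | rfl | hv) | hv) | hv
    · exact huE'
    · exact huE
    · exact hsub hv
    · exact (mem_filter.1 (hKE hv)).1
    · exact (mem_filter.1 (hKE' hv)).1

theorem unf_batch (hJ : ∀ x : J, x + x = 0) {p : V → V} {r : V} {d : V → ℕ}
    (hd : ∀ v, v ≠ r → d v = d (p v) + 1) (χ : J →+ ZMod 2)
    (hχ : 2 * (univ.filter (fun x : J => χ x = 0)).card = Fintype.card J) (hχ1 : ∃ x, χ x = 1)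
    {Z : Finset J} (hZadd : ∀ x ∈ Z, ∀ y ∈ Z, x + y ∈ Z) (hZχ : ∀ z ∈ Z, χ z = 0)
    {H E E' : Finset V} (hrH : r ∉ H) (hE : Closed p r E) (hE' : Closed p r E') (hsub : E' ⊆ E)
    {u u' : V} (huE : u ∈ E) (huE' : u' ∈ E) (hu : u ∉ E') (hu' : u' ∉ E') (hpu : p u ∈ E')
    (hpp : p u' = p u) (hcase : (u' = u ∧ p u = r) ∨ (u' ≠ u ∧ p u ≠ r))
    (hch : ∀ v ∈ E', p v ≠ u) (hch' : ∀ v ∈ E', p v ≠ u')
    (hcount : (E ∩ H).card ≤ (E' ∩ H).card + 2 * ((E ∩ H).filter (fun v => p v = u)).card)
    (hcard : 8 * E.card + 4 * Z.card < Fintype.card J)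
    (h : Unf p r χ Z H E') : Unf p r χ Z H E ∨ Fnd p r Z H E := by
  obtain ⟨g, hg, hχg, hZg, hc⟩ := h
  have hur : u ≠ r := fun e => hu (e ▸ hE'.root)
  have hg0 : (0 : J) ∈ E'.image g := mem_image.2 ⟨r, hE'.root, hg.root⟩
  obtain ⟨y0, hy0⟩ : ∃ y0, y0 = g (p u) := ⟨_, rfl⟩
  have hy0U : y0 ∈ E'.image g := by rw [hy0]; exact mem_image_of_mem g hpu
  have hχU : ∀ y ∈ E'.image g, χ y = 0 := by
    intro y hy
    obtain ⟨v, hv, rfl⟩ := mem_image.1 hy
    exact hχg v hv
  have hχy0 : χ y0 = 0 := hχU y0 hy0U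
  obtain ⟨n, hn⟩ : ∃ n, n = ((E ∩ H).filter (fun v => p v = u)).card := ⟨_, rfl⟩
  obtain ⟨c, hcc⟩ : ∃ c, c = (E.filter (fun v => p v = u)).card := ⟨_, rfl⟩
  have hnc : n ≤ c := by
    rw [hn, hcc]
    exact card_le_card (filter_subset_filter _ inter_subset_left)
  have hceven : Even c := by rw [hcc]; exact hE.even u hur
  obtain ⟨c', hc'⟩ := hceven
  obtain ⟨s, hs⟩ : ∃ s, s = min n c' := ⟨_, rfl⟩
  have hsn : s ≤ n := hs ▸ min_le_left _ _
  have hsc : s ≤ c' := hs ▸ min_le_right _ _
  have hns : n ≤ 2 * s := by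
    rcases min_choice n c' with h1 | h1 <;> omega
  set Zr : Finset J := Z.filter (fun z => z ∉ E'.image g) with hZr
  have hE1img : ∀ (g1 : V → J) (x : J), (∀ v ∈ E', g1 v = g v) → g1 u = x → g1 u' = x + g (p u) →
      (insert u' (insert u E')).image g1 = insert (x + y0) (insert x (E'.image g)) := by
    intro g1 x h1 h2 h3
    rw [image_insert, image_insert, h2, h3, ← hy0]
    congr 2
    exact image_congr (fun v hv => h1 v hv)
  have hr1 : r ∈ insert u' (insert u E') := mem_insert_of_mem (mem_insert_of_mem hE'.root)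
  have hu1 : u ∈ insert u' (insert u E') := mem_insert_of_mem (mem_insert_self _ _)
  have hp1 : ∀ v ∈ insert u' (insert u E'), p v ∈ insert u' (insert u E') := by
    intro v hv
    apply mem_insert_of_mem
    apply mem_insert_of_mem
    rw [mem_insert, mem_insert] at hv
    rcases hv with rfl | rfl | hv
    · rw [hpp]; exact hpu
    · exact hpu
    · exact hE'.parent v hv
  have hE'1 : E' ⊆ insert u' (insert u E') :=
    (subset_insert _ _).trans (subset_insert _ _)
  by_cases hA : Zr.card ≤ s
  · -- case A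
    right
    obtain ⟨x, hx1⟩ := hχ1
    have hxU : x ∉ E'.image g := by
      intro h
      have := hχU x h
      rw [hx1] at this
      exact one_ne_zero this
    have hχxy : χ (x + y0) = 1 := by rw [map_add, hx1, hχy0, add_zero]
    have hxyU : x + g (p u) ∉ E'.image g := by
      rw [← hy0]
      intro h
      have := hχU _ h
      rw [hχxy] at this
      exact one_ne_zero this
    obtain ⟨g1, hg1E, hg1u, hg1u', hlab1⟩ := lab_pair hJ hE'.root hE'.parent hg hu hu' hpu hpp
      hcase hxU hxyU
    obtain ⟨K, K', hK, hK', hKc, hKc', hdKK, hd1, hd2, hcl, hsub2⟩ :=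
      BStep_choose (H := H) hE hE' hsub huE huE' hu hu' hpu hpp hcase hch (q := Zr.card)
        (by omega) (by omega)
    obtain ⟨g2, hg2E, hlab2, hKi, hKi'⟩ := lab_batch hJ hur Zr.card
      (insert u' (insert u E')) K K' Zr g1 hr1 hp1 hu1 hlab1 hKc hKc' rfl hd1 hd2 hdKK
      (fun v hv => (mem_filter.1 (hK hv)).2) (fun v hv => (mem_filter.1 (hK' hv)).2) (by
        intro y hy
        obtain ⟨hyZ, hyU⟩ := mem_filter.1 hy
        have hχy := hZχ y hyZ
        have hχyx : χ (y + x) = 1 := by rw [map_add, hχy, hx1, zero_add]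
        rw [hE1img g1 x hg1E hg1u hg1u', hg1u]
        refine ⟨?_, ?_, ?_⟩
        · rw [mem_insert, mem_insert]
          rintro (h | h | h)
          · rw [h, hχxy] at hχy
            exact one_ne_zero hχy
          · rw [h, hx1] at hχy
            exact one_ne_zero hχy
          · exact hyU h
        · rw [mem_insert, mem_insert]
          rintro (h | h | h)
          · rw [add_comm y x] at h
            exact hyU ((add_left_cancel h) ▸ hy0U)
          · have h2 : y = 0 := by
              have h3 : y + x = 0 + x := by rw [h, zero_add]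
              exact add_right_cancel h3
            exact hyU (h2 ▸ hg0)
          · have := hχU _ h
            rw [hχyx] at this
            exact one_ne_zero this
        · intro h
          have := hZχ _ (mem_filter.1 h).1
          rw [hχyx] at this
          exact one_ne_zero this)
    have hfnd : Fnd p r Z H (insert u' (insert u E') ∪ K ∪ K') := by
      refine ⟨g2, hlab2, fun z hzZ hz0 => ?_⟩
      by_cases hzU : z ∈ E'.image g
      · obtain ⟨v, hv, hvz⟩ := mem_image.1 hzU
        have hvH : v ∈ H := by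
          rcases hZg v hv (hvz ▸ hzZ) with h | h
          · exfalso
            apply hz0
            rw [← hvz, h, hg.root]
          · exact h
        refine ⟨v, mem_inter.2 ⟨mem_union_left _ (mem_union_left _ (hE'1 hv)), hvH⟩, ?_⟩
        rw [hg2E v (hE'1 hv), hg1E v hv, hvz]
      · have hzr : z ∈ K.image g2 := by
          rw [hKi]
          exact mem_filter.2 ⟨hzZ, hzU⟩
        obtain ⟨v, hv, hvz⟩ := mem_image.1 hzr
        refine ⟨v, mem_inter.2 ⟨mem_union_left _ (mem_union_right _ hv), ?_⟩, hvz⟩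
        exact (mem_inter.1 (mem_filter.1 (hK hv)).1).2
    exact fnd_extend hJ hd hE hcl hsub2 (by omega) hfnd
  · -- case B
    left
    push Not at hA
    have hUc : (E'.image g).card ≤ E.card := card_image_le.trans (card_le_card hsub)
    obtain ⟨x, hχx, hxU, hxZ, hxyU, hxyZ, hfil⟩ :=
      exists_good hJ χ hχ (U := E'.image g) (Z := Z) (Zr := Zr) (by omega) y0
    have hpart : (Zr.filter (fun z => x + z ∈ E'.image g)).card +
        (Zr.filter (fun z => ¬ x + z ∈ E'.image g)).card = Zr.card :=
      card_filter_add_card_filter_not _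
    set Q0 : Finset J := Zr.filter (fun z => ¬ x + z ∈ E'.image g) with hQ0
    obtain ⟨q, hq⟩ : ∃ q, q = min s Q0.card := ⟨_, rfl⟩
    have hqs : q ≤ s := hq ▸ min_le_left _ _
    have hqQ : q ≤ Q0.card := hq ▸ min_le_right _ _
    have hsq : s ≤ 2 * q := by
      rcases min_choice s Q0.card with h1 | h1 <;> omega
    obtain ⟨Q, hQs, hQc⟩ := exists_subset_card_eq hqQ
    obtain ⟨g1, hg1E, hg1u, hg1u', hlab1⟩ := lab_pair hJ hE'.root hE'.parent hg hu hu' hpu hpp
      hcase hxU (by rw [← hy0]; exact hxyU)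
    obtain ⟨K, K', hK, hK', hKc, hKc', hdKK, hd1, hd2, hcl, hsub2⟩ :=
      BStep_choose (H := H) hE hE' hsub huE huE' hu hu' hpu hpp hcase hch (q := q)
        (by omega) (by omega)
    have hQZ : ∀ y ∈ Q, y ∈ Z ∧ y ∉ E'.image g ∧ x + y ∉ E'.image g := by
      intro y hy
      obtain ⟨h1, h2⟩ := mem_filter.1 (hQs hy)
      obtain ⟨h3, h4⟩ := mem_filter.1 h1
      exact ⟨h3, h4, h2⟩
    have hyxZ : ∀ y ∈ Z, y + x ∉ Z := by
      intro y hy h
      apply hxZ
      have h2 := hZadd y hy _ h
      rwa [← add_assoc, hJ, zero_add] at h2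
    obtain ⟨g2, hg2E, hlab2, hKi, hKi'⟩ := lab_batch hJ hur q
      (insert u' (insert u E')) K K' Q g1 hr1 hp1 hu1 hlab1 hKc hKc' hQc hd1 hd2 hdKK
      (fun v hv => (mem_filter.1 (hK hv)).2) (fun v hv => (mem_filter.1 (hK' hv)).2) (by
        intro y hy
        obtain ⟨hyZ, hyU, hxyU'⟩ := hQZ y hy
        rw [hE1img g1 x hg1E hg1u hg1u', hg1u]
        refine ⟨?_, ?_, ?_⟩
        · rw [mem_insert, mem_insert]
          rintro (h | h | h)
          · exact hxyZ (h ▸ hyZ)
          · exact hxZ (h ▸ hyZ)
          · exact hyU h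
        · rw [mem_insert, mem_insert]
          rintro (h | h | h)
          · rw [add_comm y x] at h
            exact hyU ((add_left_cancel h) ▸ hy0U)
          · have h2 : y = 0 := by
              have h3 : y + x = 0 + x := by rw [h, zero_add]
              exact add_right_cancel h3
            exact hyU (h2 ▸ hg0)
          · rw [add_comm y x] at h
            exact hxyU' h
        · intro h
          exact hyxZ y hyZ (hQZ _ h).1)
    have hKg : ∀ v ∈ K, g2 v ∈ Q := by
      intro v hv
      rw [← hKi]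
      exact mem_image_of_mem g2 hv
    have hKg' : ∀ v ∈ K', ∃ y ∈ Q, g2 v = y + x := by
      intro v hv
      have h1 : g2 v ∈ K'.image g2 := mem_image_of_mem g2 hv
      rw [hKi', hg1u] at h1
      obtain ⟨y, hy, hyv⟩ := mem_image.1 h1
      exact ⟨y, hy, hyv.symm⟩
    have hgu2 : g2 u = x := by rw [hg2E u hu1, hg1u]
    have hgu2' : g2 u' = x + y0 := by rw [hg2E u' (mem_insert_self _ _), hg1u', ← hy0]
    have hgE2 : ∀ v ∈ E', g2 v = g v := by
      intro v hv
      rw [hg2E v (hE'1 hv), hg1E v hv]
    have hχ2 : ∀ v ∈ insert u' (insert u E') ∪ K ∪ K', χ (g2 v) = 0 := by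
      intro v hv
      rw [mem_union, mem_union, mem_insert, mem_insert] at hv
      rcases hv with ((rfl | rfl | hv) | hv) | hv
      · rw [hgu2', map_add, hχx, hχy0, add_zero]
      · rw [hgu2, hχx]
      · rw [hgE2 v hv]
        exact hχg v hv
      · exact hZχ _ (hQZ _ (hKg v hv)).1
      · obtain ⟨y, hy, hyv⟩ := hKg' v hv
        rw [hyv, map_add, hχx, hZχ _ (hQZ _ hy).1, add_zero]
    have hZ2 : ∀ v ∈ insert u' (insert u E') ∪ K ∪ K', g2 v ∈ Z → v = r ∨ v ∈ H := by
      intro v hv hvZ
      rw [mem_union, mem_union, mem_insert, mem_insert] at hv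
      rcases hv with ((rfl | rfl | hv) | hv) | hv
      · rw [hgu2'] at hvZ
        exact absurd hvZ hxyZ
      · rw [hgu2] at hvZ
        exact absurd hvZ hxZ
      · rw [hgE2 v hv] at hvZ
        exact hZg v hv hvZ
      · right
        exact (mem_inter.1 (mem_filter.1 (hK hv)).1).2
      · obtain ⟨y, hy, hyv⟩ := hKg' v hv
        rw [hyv] at hvZ
        exact absurd hvZ (hyxZ y (hQZ _ hy).1)
    obtain ⟨g3, h31, h32, h33, h34⟩ := lab_extend hJ hd hE hcl hsub2
      (R := univ.filter (fun x : J => χ x = 0)) (F := Z)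
      (by
        intro x hx y hy
        simp only [mem_filter, mem_univ, true_and] at hx hy ⊢
        rw [map_add, hx, hy, add_zero])
      hlab2
      (by
        intro v hv
        simp only [mem_filter, mem_univ, true_and]
        exact hχ2 v hv)
      (by omega)
    refine ⟨g3, h32, fun v hv => (mem_filter.1 (h33 v hv)).2, ?_, ?_⟩
    · intro v hv hvZ
      by_cases hv2 : v ∈ insert u' (insert u E') ∪ K ∪ K'
      · rw [h31 v hv2] at hvZ
        exact hZ2 v hv2 hvZ
      · exact absurd hvZ (h34 v hv hv2)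
    · have hsubc : ((E' ∩ H).filter (fun v => g v ∈ Z)) ∪ K ⊆
          (E ∩ H).filter (fun v => g3 v ∈ Z) := by
        intro v hv
        rw [mem_union] at hv
        rcases hv with hv | hv
        · obtain ⟨h1, h2⟩ := mem_filter.1 hv
          obtain ⟨h3, h4⟩ := mem_inter.1 h1
          have h5 : v ∈ insert u' (insert u E') ∪ K ∪ K' :=
            mem_union_left _ (mem_union_left _ (hE'1 h3))
          refine mem_filter.2 ⟨mem_inter.2 ⟨hsub h3, h4⟩, ?_⟩
          rw [h31 v h5, hgE2 v h3]
          exact h2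
        · have h5 : v ∈ insert u' (insert u E') ∪ K ∪ K' :=
            mem_union_left _ (mem_union_right _ hv)
          refine mem_filter.2 ⟨(mem_filter.1 (hK hv)).1, ?_⟩
          rw [h31 v h5]
          exact (hQZ _ (hKg v hv)).1
      have hdisj : Disjoint ((E' ∩ H).filter (fun v => g v ∈ Z)) K := by
        rw [disjoint_left]
        intro v hv hvK
        exact (disjoint_left.1 hd1) (hE'1 (mem_inter.1 (mem_filter.1 hv).1).1) hvK
      have hcc2 := card_le_card hsubc
      rw [card_union_of_disjoint hdisj, hKc] at hcc2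
      omega

end

end Pool.Agent.H60.FN
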