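import Mathlib
import Pool.Agent.H60.FN.BStep

/-!
# FNExact: the exact labelling lemma

Proof of `depth_lt`: strong induction on `d v`: if `p v = r` then `d v = d r + 1`; otherwise
`d (p v) < d v`, so `d r < d (p v)` by induction.

Proof of `unf_or_fnd`.  Strong induction on `N = E.card` (the statement for all closed `E`).
* `E = {r}`: `g = 0` is a labelling, `E ∩ H = ∅`: `Unf`.
* Otherwise choose `v0 ∈ E.erase r` with `d v0` maximal.  No `v ∈ E` (other than ...) has a parent of
  depth `>= d v0` different from `r`: for `v ∈ E`, `v ≠ r`: `d (p v) + 1 = d v <= d v0`; for `v = r`: `p v = r`.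
  (1) `p v0 = r`.  `E' = E.erase v0` is closed.  Induction hypothesis.  `Fnd E'` gives `Fnd E` by
  `fnd_extend`.  `Unf E'`: if `v0 ∉ H` then `unf_extend`, if `v0 ∈ H` then `unf_root_child`.
  (2) `p v0 ≠ r` and no `h ∈ E ∩ H` has `d h = d v0`.  Let `v1 ≠ v0` be another element of
  `E.filter (p · = p v0)` (even by `hE.even`, contains `v0`), `d v1 = d v0`.  `E' = (E.erase v1).erase v0` is
  closed (compare the proof of `exists_plab` in `Pool/Agent/H57/SS/Rooted.lean`).  `v0, v1 ∉ H`.  `fnd_extend`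
  or `unf_extend`.
  (3) `p v0 ≠ r` and `h0 ∈ E ∩ H` with `d h0 = d v0`.  Among the `u ∈ E` with `d u + 1 = d v0` choose one
  with `n u = ((E ∩ H).filter (p · = u)).card` maximal (`p v0` is one).  `u ≠ r`, because
  `d u = d (p v0) > d r` (`depth_lt`).
  `u ∉ H`: `d h0 % 2 = ε = (d u + 1) % 2`, so `d u % 2 ≠ ε`.
  Let `u' = u` if `p u = r`, and otherwise `u'` another element of `E.filter (p · = p u)`; then
  `p u' = p u`, `u' ≠ r` (if `u' = r` then `p u = p u' = r`), `d u' = d u`, `u' ∉ H`.
  `E' = E.filter (fun v => v ≠ u ∧ v ≠ u' ∧ p v ≠ u ∧ p v ≠ u')`.  Closed: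
  - root: `r ≠ u, u'` and `p r = r`.
  - parents: for `v ∈ E'`, `p v ∈ E`, `p v ≠ u, u'`.  `p (p v) ≠ u`: if `p (p v) = u` then `v ≠ r`, `p v ≠ r`
    (as `p r = r ≠ u`) and `d v = d u + 2 = d v0 + 1`, contradiction.  Same for `u'`.
  - even: let `w ≠ r`.  If `w = u` or `w = u'` the fibre is empty.  If `w = p u` (so `p u ≠ r`, `u ≠ u'`) it is
    `E.filter (p · = w)` without `u`, `u'` (note `w ≠ u, u'`: `d (p u) < d u`).  Otherwise it is
    `E.filter (p · = w)` (`v = u` or `v = u'` is impossible since `p v = w ≠ p u`).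
  `p u ∈ E'`: `p u ∈ E`, `p u ≠ u, u'` by depth, `p (p u) ≠ u, u'` by depth (or `p u = r`).
  `hcount`: `E ∩ H` minus `E' ∩ H` is contained in the `H`-children of `u` and of `u'` (as `u, u' ∉ H`), at most
  `n u + n u' <= 2 * n u` (if `u' = u`, at most `n u`); `n u' <= n u` by maximality (`u' ∈ E`, `d u' + 1 = d v0`).
  `E'.card < E.card`.  Induction hypothesis for `E'`, then `fnd_extend` or `unf_batch`.

Proof of `exact_lab`.  If `Unf E` with `g`: the filtered set has at most `Z.card - 1` elements (`g` is injective on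
it with values in `Z.erase 0`: `g v = 0 = g r` would give `v = r ∉ H`; `0 ∈ Z` by `hZ0`), so
`8 * Z.card <= H.card = (E ∩ H).card <= 8 * (Z.card - 1)`, contradiction as `Z.card >= 1`.
-/

set_option autoImplicit false

open Finset

namespace Pool.Agent.H60.FN

open Pool.Agent.H57.SS

theorem depth_lt {V : Type*} {p : V → V} {r : V} {d : V → ℕ}
    (hd : ∀ v, v ≠ r → d v = d (p v) + 1) (v : V) (hv : v ≠ r) : d r < d v := by
  obtain ⟨n, hn⟩ : ∃ n, n = d v := ⟨_, rfl⟩
  induction n using Nat.strong_induction_on generalizing v with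
  | _ n ih =>
    have h1 := hd v hv
    by_cases h : p v = r
    · rw [h] at h1
      omega
    · have h2 := ih (d (p v)) (by omega) (p v) h rfl
      omega

private theorem exact_closed_one {V : Type*} [DecidableEq V] {p : V → V} {r : V} {E : Finset V}
    (hE : Closed p r E) {v : V} (hvr : v ≠ r) (hpv : p v = r) (hno : ∀ u ∈ E, p u ≠ v) :
    Closed p r (E.erase v) := by
  refine ⟨mem_erase.2 ⟨hvr.symm, hE.root⟩, ?_, ?_⟩
  · intro u hu
    rw [mem_erase] at hu
    exact mem_erase.2 ⟨hno u hu.2, hE.parent u hu.2⟩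
  · intro w hw
    have h1 : (E.erase v).filter (fun u => p u = w) = E.filter (fun u => p u = w) := by
      ext u
      rw [mem_filter, mem_filter, mem_erase]
      constructor
      · rintro ⟨⟨_, h3⟩, h4⟩
        exact ⟨h3, h4⟩
      · rintro ⟨h3, h4⟩
        refine ⟨⟨?_, h3⟩, h4⟩
        rintro rfl
        exact hw (h4 ▸ hpv)
    rw [h1]
    exact hE.even w hw

private theorem exact_erase_even {V : Type*} [DecidableEq V] {p : V → V} {r : V} {E : Finset V}
    (hE : Closed p r E) {w u u' : V} (hw : w ≠ r) (hu : u ∈ E) (hu' : u' ∈ E) (hne : u' ≠ u)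
    (hpu : p u = w) (hpu' : p u' = w) :
    Even (((E.filter (fun v => p v = w)).erase u').erase u).card := by
  rw [card_erase_of_mem, card_erase_of_mem]
  · obtain ⟨k, hk⟩ := hE.even w hw
    exact ⟨k - 1, by omega⟩
  · exact mem_filter.2 ⟨hu', hpu'⟩
  · exact mem_erase.2 ⟨hne.symm, mem_filter.2 ⟨hu, hpu⟩⟩

private theorem exact_closed_two {V : Type*} [DecidableEq V] {p : V → V} {r : V} {E : Finset V}
    (hE : Closed p r E) {v v' : V} (hv : v ∈ E) (hv' : v' ∈ E) (hvr : v ≠ r) (hvr' : v' ≠ r)
    (hne : v' ≠ v) (hpp : p v' = p v) (hno : ∀ u ∈ E, p u ≠ v) (hno' : ∀ u ∈ E, p u ≠ v') :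
    Closed p r ((E.erase v').erase v) := by
  refine ⟨?_, ?_, ?_⟩
  · rw [mem_erase, mem_erase]
    exact ⟨hvr.symm, hvr'.symm, hE.root⟩
  · intro u hu
    rw [mem_erase, mem_erase] at hu ⊢
    exact ⟨hno u hu.2.2, hno' u hu.2.2, hE.parent u hu.2.2⟩
  · intro w hw
    by_cases hwv : w = p v
    · have h1 : ((E.erase v').erase v).filter (fun u => p u = w) =
          ((E.filter (fun u => p u = w)).erase v').erase v := by
        ext u
        simp only [mem_filter, mem_erase]
        tauto
      rw [h1]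
      exact exact_erase_even hE hw hv hv' hne hwv.symm (hpp.trans hwv.symm)
    · have h1 : ((E.erase v').erase v).filter (fun u => p u = w) =
          E.filter (fun u => p u = w) := by
        ext u
        simp only [mem_filter, mem_erase]
        constructor
        · rintro ⟨⟨_, _, h3⟩, h4⟩
          exact ⟨h3, h4⟩
        · rintro ⟨h3, h4⟩
          refine ⟨⟨?_, ?_, h3⟩, h4⟩
          · intro huv
            exact hwv (by rw [← h4, huv])
          · intro huv
            exact hwv (by rw [← h4, huv, hpp])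
      rw [h1]
      exact hE.even w hw

private theorem exact_closed_batch {V : Type*} [DecidableEq V] {p : V → V} {r : V}
    {E : Finset V} (hE : Closed p r E) (hpr : p r = r) {u u' : V} (hu : u ∈ E) (hu' : u' ∈ E)
    (hur : u ≠ r) (hur' : u' ≠ r) (hpp : p u' = p u)
    (hcase : (u' = u ∧ p u = r) ∨ (u' ≠ u ∧ p u ≠ r))
    (hno : ∀ v ∈ E, p (p v) ≠ u) (hno' : ∀ v ∈ E, p (p v) ≠ u') :
    Closed p r (E.filter (fun v => v ≠ u ∧ v ≠ u' ∧ p v ≠ u ∧ p v ≠ u')) := by
  refine ⟨?_, ?_, ?_⟩
  · rw [mem_filter, hpr]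
    exact ⟨hE.root, hur.symm, hur'.symm, hur.symm, hur'.symm⟩
  · intro v hv
    rw [mem_filter] at hv ⊢
    exact ⟨hE.parent v hv.1, hv.2.2.2.1, hv.2.2.2.2, hno v hv.1, hno' v hv.1⟩
  · intro w hw
    by_cases hwu : w = u
    · have h1 : (E.filter (fun v => v ≠ u ∧ v ≠ u' ∧ p v ≠ u ∧ p v ≠ u')).filter
          (fun v => p v = w) = ∅ := by
        rw [filter_eq_empty_iff]
        intro v hv h2
        rw [mem_filter] at hv
        exact hv.2.2.2.1 (h2.trans hwu)
      rw [h1, card_empty]
      exact ⟨0, rfl⟩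
    by_cases hwu' : w = u'
    · have h1 : (E.filter (fun v => v ≠ u ∧ v ≠ u' ∧ p v ≠ u ∧ p v ≠ u')).filter
          (fun v => p v = w) = ∅ := by
        rw [filter_eq_empty_iff]
        intro v hv h2
        rw [mem_filter] at hv
        exact hv.2.2.2.2 (h2.trans hwu')
      rw [h1, card_empty]
      exact ⟨0, rfl⟩
    by_cases hwp : w = p u
    · have hne : u' ≠ u := by
        rcases hcase with h | h
        · exact absurd (hwp.trans h.2) hw
        · exact h.1
      have h1 : (E.filter (fun v => v ≠ u ∧ v ≠ u' ∧ p v ≠ u ∧ p v ≠ u')).filter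
          (fun v => p v = w) = ((E.filter (fun v => p v = w)).erase u').erase u := by
        ext v
        simp only [mem_filter, mem_erase]
        constructor
        · rintro ⟨⟨h2, h3, h4, _, _⟩, h5⟩
          exact ⟨h3, h4, h2, h5⟩
        · rintro ⟨h3, h4, h2, h5⟩
          exact ⟨⟨h2, h3, h4, by rw [h5]; exact hwu, by rw [h5]; exact hwu'⟩, h5⟩
      rw [h1]
      exact exact_erase_even hE hw hu hu' hne hwp.symm (hpp.trans hwp.symm)
    · have h1 : (E.filter (fun v => v ≠ u ∧ v ≠ u' ∧ p v ≠ u ∧ p v ≠ u')).filter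
          (fun v => p v = w) = E.filter (fun v => p v = w) := by
        ext v
        simp only [mem_filter]
        constructor
        · rintro ⟨⟨h2, _⟩, h5⟩
          exact ⟨h2, h5⟩
        · rintro ⟨h2, h5⟩
          refine ⟨⟨h2, ?_, ?_, by rw [h5]; exact hwu, by rw [h5]; exact hwu'⟩, h5⟩
          · intro h6
            exact hwp (by rw [← h5, h6])
          · intro h6
            exact hwp (by rw [← h5, h6, hpp])
      rw [h1]
      exact hE.even w hw

section

variable {V J : Type*} [DecidableEq V] [AddCommGroup J] [DecidableEq J] [Fintype J]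

omit [Fintype J] in
private theorem exact_single {p : V → V} {r : V} (χ : J →+ ZMod 2) (Z : Finset J)
    {H : Finset V} (hrH : r ∉ H) : Unf p r χ Z H {r} := by
  refine ⟨fun _ => 0, ⟨rfl, ?_, ?_⟩, ?_, ?_, ?_⟩
  · intro a ha b hb _
    rw [mem_coe, mem_singleton] at ha hb
    rw [ha, hb]
  · rw [image_singleton, image_singleton, add_zero]
  · intro v _
    exact map_zero χ
  · intro v hv _
    exact Or.inl (mem_singleton.1 hv)
  · rw [singleton_inter_of_notMem hrH, card_empty]
    exact Nat.zero_le _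

theorem unf_or_fnd (hJ : ∀ x : J, x + x = 0) {p : V → V} {r : V} (hpr : p r = r) {d : V → ℕ}
    (hd : ∀ v, v ≠ r → d v = d (p v) + 1) (χ : J →+ ZMod 2)
    (hχ : 2 * (univ.filter (fun x : J => χ x = 0)).card = Fintype.card J) (hχ1 : ∃ x, χ x = 1)
    {Z : Finset J} (hZadd : ∀ x ∈ Z, ∀ y ∈ Z, x + y ∈ Z) (hZχ : ∀ z ∈ Z, χ z = 0)
    {H : Finset V} (hrH : r ∉ H) {ε : ℕ} (hHd : ∀ v ∈ H, d v % 2 = ε) (N : ℕ) :
    ∀ E : Finset V, E.card = N → Closed p r E → 8 * E.card + 4 * Z.card < Fintype.card J →
      Unf p r χ Z H E ∨ Fnd p r Z H E := by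
  induction N using Nat.strong_induction_on with
  | _ N IH =>
    intro E hEN hE hcard
    by_cases hEr : E = {r}
    · rw [hEr]
      exact Or.inl (exact_single χ Z hrH)
    have hne : (E.erase r).Nonempty := by
      rw [nonempty_iff_ne_empty]
      intro h
      rw [erase_eq_empty_iff] at h
      rcases h with h | h
      · have h1 := hE.root
        rw [h] at h1
        exact absurd h1 (notMem_empty r)
      · exact hEr h
    obtain ⟨v0, hv, hvmax⟩ := exists_max_image (E.erase r) d hne
    rw [mem_erase] at hv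
    have hmax : ∀ u ∈ E, u ≠ r → d u ≤ d v0 := fun u hu hur =>
      hvmax u (mem_erase.2 ⟨hur, hu⟩)
    have hnochild : ∀ z, z ≠ r → d z = d v0 → ∀ u ∈ E, p u ≠ z := by
      intro z hzr hdz u hu hpu
      have hur : u ≠ r := by
        rintro rfl
        rw [hpr] at hpu
        exact hzr hpu.symm
      have h3 := hd u hur
      rw [hpu] at h3
      have h4 := hmax u hu hur
      omega
    have hpos : 0 < E.card := card_pos.2 ⟨v0, hv.2⟩
    have hstep : ∀ E' : Finset V, E' ⊆ E → Closed p r E' → v0 ∉ E' →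
        (8 * E'.card + 4 * Z.card < Fintype.card J ∧
          (Unf p r χ Z H E' ∨ Fnd p r Z H E')) := by
      intro E' hsub hcl hvE'
      have h1 : E'.card < E.card := card_lt_card
        ((ssubset_iff_of_subset hsub).2 ⟨v0, hv.2, hvE'⟩)
      have h2 : 8 * E'.card + 4 * Z.card < Fintype.card J := by omega
      exact ⟨h2, IH E'.card (by omega) E' rfl hcl h2⟩
    by_cases hpv : p v0 = r
    · -- a child of the root
      have hcl := exact_closed_one hE hv.1 hpv (hnochild v0 hv.1 rfl)
      have hsub : E.erase v0 ⊆ E := erase_subset _ _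
      obtain ⟨_, h2 | h2⟩ := hstep _ hsub hcl (notMem_erase v0 E)
      · by_cases hvH : v0 ∈ H
        · exact unf_root_child hJ hd χ hZχ hE hcl (notMem_erase v0 E)
            (insert_erase hv.2).symm hpv hvH hcard h2
        · refine Or.inl (unf_extend hJ hd χ hχ hE hcl hsub ?_ hcard h2)
          intro x hx
          rw [mem_inter] at hx
          refine mem_erase.2 ⟨?_, hx.1⟩
          rintro rfl
          exact hvH hx.2
      · exact Or.inr (fnd_extend hJ hd hE hcl hsub (by omega) h2)
    by_cases hH0 : ∀ h ∈ E ∩ H, d h ≠ d v0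
    · -- a pair of siblings outside `H`
      obtain ⟨v1, hv1, hne1⟩ : ∃ v1 ∈ E.filter (fun u => p u = p v0), v1 ≠ v0 := by
        have h3 : v0 ∈ E.filter (fun u => p u = p v0) := mem_filter.2 ⟨hv.2, rfl⟩
        have h4 : 1 < (E.filter (fun u => p u = p v0)).card := by
          have h5 : 0 < (E.filter (fun u => p u = p v0)).card := card_pos.2 ⟨v0, h3⟩
          obtain ⟨k, hk⟩ := hE.even (p v0) hpv
          omega
        exact exists_mem_ne h4 v0
      rw [mem_filter] at hv1
      have hv1r : v1 ≠ r := by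
        rintro rfl
        rw [hpr] at hv1
        exact hpv hv1.2.symm
      have hd1 : d v1 = d v0 := by rw [hd v1 hv1r, hd v0 hv.1, hv1.2]
      have hcl := exact_closed_two hE hv.2 hv1.1 hv.1 hv1r hne1 hv1.2
        (hnochild v0 hv.1 rfl) (hnochild v1 hv1r hd1)
      have hsub : (E.erase v1).erase v0 ⊆ E := (erase_subset _ _).trans (erase_subset _ _)
      obtain ⟨_, h2 | h2⟩ := hstep _ hsub hcl (notMem_erase v0 _)
      · refine Or.inl (unf_extend hJ hd χ hχ hE hcl hsub ?_ hcard h2)
        intro x hx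
        have h3 := hH0 x hx
        rw [mem_inter] at hx
        refine mem_erase.2 ⟨?_, mem_erase.2 ⟨?_, hx.1⟩⟩
        · rintro rfl
          exact h3 rfl
        · rintro rfl
          exact h3 hd1
      · exact Or.inr (fnd_extend hJ hd hE hcl hsub (by omega) h2)
    · -- a batch
      push Not at hH0
      obtain ⟨h0, hh0, hdh0⟩ := hH0
      rw [mem_inter] at hh0
      have hdp0 := hd v0 hv.1
      have hSne : (E.filter (fun u => d u + 1 = d v0)).Nonempty :=
        ⟨p v0, mem_filter.2 ⟨hE.parent v0 hv.2, hdp0.symm⟩⟩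
      obtain ⟨u, huS, humax⟩ := exists_max_image (E.filter (fun u => d u + 1 = d v0))
        (fun u => ((E ∩ H).filter (fun v => p v = u)).card) hSne
      rw [mem_filter] at huS
      have hpv0 := depth_lt hd (p v0) hpv
      have hall : ∀ z, d z + 1 = d v0 → z ≠ r ∧ z ∉ H := by
        intro z hz
        constructor
        · rintro rfl
          omega
        · intro hzH
          have h1 := hHd z hzH
          have h2 := hHd h0 hh0.2
          omega
      obtain ⟨hur, huH⟩ := hall u huS.2
      obtain ⟨u', hu'E, hpp, hcase⟩ : ∃ u' ∈ E, p u' = p u ∧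
          ((u' = u ∧ p u = r) ∨ (u' ≠ u ∧ p u ≠ r)) := by
        by_cases hpu : p u = r
        · exact ⟨u, huS.1, rfl, Or.inl ⟨rfl, hpu⟩⟩
        · have h3 : u ∈ E.filter (fun v => p v = p u) := mem_filter.2 ⟨huS.1, rfl⟩
          have h4 : 1 < (E.filter (fun v => p v = p u)).card := by
            have h5 : 0 < (E.filter (fun v => p v = p u)).card := card_pos.2 ⟨u, h3⟩
            obtain ⟨k, hk⟩ := hE.even (p u) hpu
            omega
          obtain ⟨u', hu', hne'⟩ := exists_mem_ne h4 u
          rw [mem_filter] at hu'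
          exact ⟨u', hu'.1, hu'.2, Or.inr ⟨hne', hpu⟩⟩
      have hur' : u' ≠ r := by
        rcases hcase with h | h
        · rw [h.1]
          exact hur
        · rintro rfl
          rw [hpr] at hpp
          exact h.2 hpp.symm
      have hdu' : d u' = d u := by rw [hd u' hur', hd u hur, hpp]
      obtain ⟨_, huH'⟩ := hall u' (by rw [hdu']; exact huS.2)
      have hno : ∀ z, z ≠ r → d z = d u → ∀ v ∈ E, p (p v) ≠ z := by
        intro z hzr hdz v hvE hppv
        have hpvr : p v ≠ r := by
          intro h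
          rw [h, hpr] at hppv
          exact hzr hppv.symm
        have hvr : v ≠ r := by
          rintro rfl
          exact hpvr hpr
        have h1 := hd v hvr
        have h2 := hd (p v) hpvr
        rw [hppv] at h2
        have h3 := hmax v hvE hvr
        omega
      have hcl := exact_closed_batch hE hpr huS.1 hu'E hur hur' hpp hcase (hno u hur rfl)
        (hno u' hur' hdu')
      have hsub : E.filter (fun v => v ≠ u ∧ v ≠ u' ∧ p v ≠ u ∧ p v ≠ u') ⊆ E :=
        filter_subset _ _
      have huE' : u ∉ E.filter (fun v => v ≠ u ∧ v ≠ u' ∧ p v ≠ u ∧ p v ≠ u') := by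
        intro h
        exact (mem_filter.1 h).2.1 rfl
      have huE'' : u' ∉ E.filter (fun v => v ≠ u ∧ v ≠ u' ∧ p v ≠ u ∧ p v ≠ u') := by
        intro h
        exact (mem_filter.1 h).2.2.1 rfl
      have hdpu := hd u hur
      have hpuE' : p u ∈ E.filter (fun v => v ≠ u ∧ v ≠ u' ∧ p v ≠ u ∧ p v ≠ u') := by
        refine mem_filter.2 ⟨hE.parent u huS.1, ?_, ?_, hno u hur rfl u huS.1,
          hno u' hur' hdu' u huS.1⟩
        · intro h
          rw [h] at hdpu
          omega
        · intro h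
          rw [h] at hdpu
          omega
      have hcount : (E ∩ H).card ≤
          (E.filter (fun v => v ≠ u ∧ v ≠ u' ∧ p v ≠ u ∧ p v ≠ u') ∩ H).card +
            2 * ((E ∩ H).filter (fun v => p v = u)).card := by
        have h1 : E ∩ H ⊆ (E.filter (fun v => v ≠ u ∧ v ≠ u' ∧ p v ≠ u ∧ p v ≠ u') ∩ H) ∪
            ((E ∩ H).filter (fun v => p v = u) ∪ (E ∩ H).filter (fun v => p v = u')) := by
          intro x hx
          rw [mem_union, mem_union, mem_filter, mem_filter]
          by_cases hx1 : p x = u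
          · exact Or.inr (Or.inl ⟨hx, hx1⟩)
          by_cases hx2 : p x = u'
          · exact Or.inr (Or.inr ⟨hx, hx2⟩)
          rw [mem_inter] at hx
          refine Or.inl (mem_inter.2 ⟨mem_filter.2 ⟨hx.1, ?_, ?_, hx1, hx2⟩, hx.2⟩)
          · intro h
            rw [h] at hx
            exact huH hx.2
          · intro h
            rw [h] at hx
            exact huH' hx.2
        have h2 := card_le_card h1
        have h3 := card_union_le (E.filter (fun v => v ≠ u ∧ v ≠ u' ∧ p v ≠ u ∧ p v ≠ u') ∩ H)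
          ((E ∩ H).filter (fun v => p v = u) ∪ (E ∩ H).filter (fun v => p v = u'))
        have h4 := card_union_le ((E ∩ H).filter (fun v => p v = u))
          ((E ∩ H).filter (fun v => p v = u'))
        have h5 : ((E ∩ H).filter (fun v => p v = u')).card ≤
            ((E ∩ H).filter (fun v => p v = u)).card :=
          humax u' (mem_filter.2 ⟨hu'E, by rw [hdu']; exact huS.2⟩)
        omega
      have hlt : (E.filter (fun v => v ≠ u ∧ v ≠ u' ∧ p v ≠ u ∧ p v ≠ u')).card < E.card :=
        card_lt_card ((ssubset_iff_of_subset hsub).2 ⟨u, huS.1, huE'⟩)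
      rcases IH _ (by omega) _ rfl hcl (by omega) with h2 | h2
      · exact unf_batch hJ hd χ hχ hχ1 hZadd hZχ hrH hE hcl hsub huS.1 hu'E huE' huE'' hpuE' hpp
          hcase (fun v hv => (mem_filter.1 hv).2.2.2.1) (fun v hv => (mem_filter.1 hv).2.2.2.2)
          hcount hcard h2
      · exact Or.inr (fnd_extend hJ hd hE hcl hsub (by omega) h2)

theorem exact_lab (hJ : ∀ x : J, x + x = 0) {p : V → V} {r : V} (hpr : p r = r) {d : V → ℕ}
    (hd : ∀ v, v ≠ r → d v = d (p v) + 1) (χ : J →+ ZMod 2)
    (hχ : 2 * (univ.filter (fun x : J => χ x = 0)).card = Fintype.card J) (hχ1 : ∃ x, χ x = 1)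
    {Z : Finset J} (hZ0 : (0 : J) ∈ Z) (hZadd : ∀ x ∈ Z, ∀ y ∈ Z, x + y ∈ Z)
    (hZχ : ∀ z ∈ Z, χ z = 0) {H : Finset V} (hrH : r ∉ H) {ε : ℕ} (hHd : ∀ v ∈ H, d v % 2 = ε)
    {E : Finset V} (hE : Closed p r E) (hHE : H ⊆ E) (hH : 8 * Z.card ≤ H.card)
    (hcard : 8 * E.card + 4 * Z.card < Fintype.card J) :
    ∃ g : V → J, Lab p r E g ∧ ∀ z ∈ Z, z ≠ 0 → ∃ v ∈ H, g v = z := by
  have hEH : E ∩ H = H := inter_eq_right.2 hHE
  rcases unf_or_fnd hJ hpr hd χ hχ hχ1 hZadd hZχ hrH hHd E.card E rfl hE hcard with h | h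
  · exfalso
    obtain ⟨g, hlab, _, _, h4⟩ := h
    rw [hEH] at h4
    have h5 : (H.filter (fun v => g v ∈ Z)).card ≤ (Z.erase 0).card := by
      refine card_le_card_of_injOn g ?_ ?_
      · intro v hv
        rw [mem_coe, mem_filter] at hv
        rw [mem_coe, mem_erase]
        refine ⟨?_, hv.2⟩
        intro h0
        have h6 : v = r := hlab.inj (mem_coe.2 (hHE hv.1)) (mem_coe.2 hE.root)
          (by rw [h0, hlab.root])
        rw [h6] at hv
        exact hrH hv.1
      · intro a ha b hb hab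
        rw [mem_coe, mem_filter] at ha hb
        exact hlab.inj (mem_coe.2 (hHE ha.1)) (mem_coe.2 (hHE hb.1)) hab
    rw [card_erase_of_mem hZ0] at h5
    have h7 : 0 < Z.card := card_pos.2 ⟨0, hZ0⟩
    omega
  · obtain ⟨g, hlab, h2⟩ := h
    rw [hEH] at h2
    exact ⟨g, hlab, h2⟩

end

end Pool.Agent.H60.FN
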