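import Mathlib

/-!
# FNPerm: a permutation of `Y` with each difference used at most four times

Proof.  Consider the pairs `(D, π)`, `D ⊆ Y`, `π` injective on `D`, `π x ∈ Y` for `x ∈ D`, and
`(D.filter (fun x => x + π x = d)).card <= 4` for all `d`.  `D = ∅` is one.  Show by induction on `m`:
for all `m <= Y.card` there is one with `D.card = m`.  (Then `D = Y` for `m = Y.card`.)
Step: `D.card < Y.card`.  There are `a ∈ Y \ D` and `b ∈ Y \ D.image π` (cardinalities).
Write `n d = (D.filter (x + π x = d)).card`, call `d` full if `n d = 4`.  Let `δ = a + b`.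
(1) `δ` not full: `insert a D`, `Function.update π a b`.
(2) `δ` full.  For `c ∈ D`, `e = π c`: replace by `π' = update (update π a e) c b` on `insert a D`
(the sums are `a + e` at `a`, `c + b` at `c`, the others are unchanged; `π'` is injective on
`insert a D`, its image is `insert b (D.image π)`).  For every `d`, the new count is at most
`n d + [a + e = d] + [c + b = d]`.  `a + e ≠ δ` as `e ≠ b`; `c + b ≠ δ` as `c ≠ a`.
`a + e = c + b` iff `c + e = a + b = δ` (exponent two).
 (2a) All `x ∈ D` satisfy `x + π x = δ`: then `D.card = 4`, take any `c ∈ D`, `a + e = c + b = d ≠ δ`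
 and `n d = 0`, so the new count is `2`.
 (2b) Otherwise let `D' = D.filter (x + π x ≠ δ)`, `D'.card = D.card - 4 >= 1`.  Let `S` be the set of the
 full `d ≠ δ`: `4 * S.card <= D'.card` (the classes of `D'` with sums in `S` are disjoint and have
 four elements).  The `c ∈ D'` with `a + π c ∈ S` are at most `S.card` (`π` is injective on `D`), the
 `c ∈ D'` with `c + b ∈ S` are at most `S.card`.  As `2 * S.card <= D'.card / 2 < D'.card` there is
 `c ∈ D'` with `a + π c` and `c + b` not full and different from each other: all new counts are `<= 4`.
-/

set_option autoImplicit false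

open Finset

namespace Pool.Agent.H60.FN

private theorem FNPerm_kl {A : Type*} [DecidableEq A] (D : Finset A) (a : A) (f g : A → A)
    (h : ∀ x ∈ D, f x = g x) (d : A) :
    ((insert a D).filter (fun x => f x = d)).card ≤
      (D.filter (fun x => g x = d)).card + (if f a = d then 1 else 0) := by
  have h1 : D.filter (fun x => f x = d) = D.filter (fun x => g x = d) := by
    apply Finset.filter_congr
    intro x hx
    rw [h x hx]
  rw [Finset.filter_insert]
  by_cases hd : f a = d
  · rw [if_pos hd, if_pos hd, ← h1]
    exact Finset.card_insert_le _ _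
  · rw [if_neg hd, if_neg hd, ← h1]
    exact le_rfl

private theorem FNPerm_swap {A : Type*} [AddCommGroup A] [DecidableEq A]
    (Y D : Finset A) (π : A → A) (hmap : ∀ x ∈ D, π x ∈ Y) (hinj : Set.InjOn π D)
    (a b c : A) (haD : a ∉ D) (hbY : b ∈ Y) (hbD : b ∉ D.image π) (hc : c ∈ D) :
    ∃ π' : A → A, (∀ x ∈ insert a D, π' x ∈ Y) ∧
      Set.InjOn π' (insert a D : Finset A) ∧
      ∀ d, ((insert a D).filter (fun x => x + π' x = d)).card ≤
        ((D.erase c).filter (fun x => x + π x = d)).card +
          (if c + b = d then 1 else 0) + (if a + π c = d then 1 else 0) := by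
  have hac : a ≠ c := by
    rintro rfl
    exact haD hc
  have hb' : ∀ x ∈ D, π x ≠ b := by
    intro x hx hxb
    exact hbD (Finset.mem_image.2 ⟨x, hx, hxb⟩)
  refine ⟨fun x => if x = a then π c else if x = c then b else π x, ?_, ?_, ?_⟩
  · intro x hx
    by_cases h1 : x = a
    · simp only [h1, if_true]
      exact hmap c hc
    · have hxD : x ∈ D := by
        rcases Finset.mem_insert.1 hx with h | h
        · exact absurd h h1
        · exact h
      by_cases h2 : x = c
      · simp only [if_neg h1, if_pos h2]
        exact hbY
      · simp only [if_neg h1, if_neg h2]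
        exact hmap x hxD
  · intro x hx y hy hxy
    have hx' : x = a ∨ x ∈ D := Finset.mem_insert.1 (Finset.mem_coe.1 hx)
    have hy' : y = a ∨ y ∈ D := Finset.mem_insert.1 (Finset.mem_coe.1 hy)
    have key : ∀ z, z ≠ a → z ∈ D → (if z = c then b else π z) ≠ π c := by
      intro z hza hz
      by_cases hzc : z = c
      · rw [if_pos hzc]
        exact fun h => hb' c hc h.symm
      · rw [if_neg hzc]
        intro h
        exact hzc (hinj (Finset.mem_coe.2 hz) (Finset.mem_coe.2 hc) h)
    by_cases h1 : x = a
    · by_cases h2 : y = a
      · rw [h1, h2]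
      · exfalso
        have hyD : y ∈ D := by
          rcases hy' with h | h
          · exact absurd h h2
          · exact h
        simp only [if_pos h1, if_neg h2] at hxy
        exact key y h2 hyD hxy.symm
    · have hxD : x ∈ D := by
        rcases hx' with h | h
        · exact absurd h h1
        · exact h
      by_cases h2 : y = a
      · exfalso
        simp only [if_neg h1, if_pos h2] at hxy
        exact key x h1 hxD hxy
      · have hyD : y ∈ D := by
          rcases hy' with h | h
          · exact absurd h h2
          · exact h
        simp only [if_neg h1, if_neg h2] at hxy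
        by_cases h3 : x = c
        · by_cases h4 : y = c
          · rw [h3, h4]
          · exfalso
            rw [if_pos h3, if_neg h4] at hxy
            exact hb' y hyD hxy.symm
        · by_cases h4 : y = c
          · exfalso
            rw [if_neg h3, if_pos h4] at hxy
            exact hb' x hxD hxy
          · rw [if_neg h3, if_neg h4] at hxy
            exact hinj (Finset.mem_coe.2 hxD) (Finset.mem_coe.2 hyD) hxy
  · intro d
    set f : A → A := fun x => x + (if x = a then π c else if x = c then b else π x) with hf
    have hD : insert c (D.erase c) = D := Finset.insert_erase hc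
    have e1 := FNPerm_kl D a f (fun x => x + (if x = c then b else π x)) (by
      intro x hx
      have : x ≠ a := by
        rintro rfl
        exact haD hx
      simp only [hf, if_neg this]) d
    have e2 := FNPerm_kl (D.erase c) c (fun x => x + (if x = c then b else π x))
      (fun x => x + π x) (by
        intro x hx
        have : x ≠ c := Finset.ne_of_mem_erase hx
        simp only [if_neg this]) d
    rw [hD] at e2
    have e3 : f a = a + π c := by
      simp only [hf, if_true]
    rw [e3] at e1
    simp only [if_true] at e2
    exact le_trans e1 (Nat.add_le_add_right e2 _)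

private theorem FNPerm_step {A : Type*} [AddCommGroup A] [DecidableEq A]
    (hA : ∀ x : A, x + x = 0) (Y D : Finset A) (π : A → A) (hD : D ⊆ Y)
    (hlt : D.card < Y.card) (hmap : ∀ x ∈ D, π x ∈ Y) (hinj : Set.InjOn π D)
    (hc : ∀ d, (D.filter (fun x => x + π x = d)).card ≤ 4) :
    ∃ (D' : Finset A) (π' : A → A), D' ⊆ Y ∧ D'.card = D.card + 1 ∧
      (∀ x ∈ D', π' x ∈ Y) ∧ Set.InjOn π' D' ∧
      ∀ d, (D'.filter (fun x => x + π' x = d)).card ≤ 4 := by
  obtain ⟨a, haY, haD⟩ := Finset.exists_mem_notMem_of_card_lt_card hlt
  obtain ⟨b, hbY, hbD⟩ := Finset.exists_mem_notMem_of_card_lt_card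
    (lt_of_le_of_lt (Finset.card_image_le (s := D) (f := π)) hlt)
  have hb' : ∀ x ∈ D, π x ≠ b := by
    intro x hx hxb
    exact hbD (Finset.mem_image.2 ⟨x, hx, hxb⟩)
  have hsub : insert a D ⊆ Y := by
    intro x hx
    rcases Finset.mem_insert.1 hx with h | h
    · rw [h]
      exact haY
    · exact hD h
  have hcard : (insert a D).card = D.card + 1 := Finset.card_insert_of_notMem haD
  by_cases hfull : (D.filter (fun x => x + π x = a + b)).card < 4
  · refine ⟨insert a D, Function.update π a b, hsub, hcard, ?_, ?_, ?_⟩
    · intro x hx
      by_cases h1 : x = a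
      · rw [h1, Function.update_self]
        exact hbY
      · rw [Function.update_of_ne h1]
        rcases Finset.mem_insert.1 hx with h | h
        · exact absurd h h1
        · exact hmap x h
    · intro x hx y hy hxy
      have hx' : x = a ∨ x ∈ D := Finset.mem_insert.1 (Finset.mem_coe.1 hx)
      have hy' : y = a ∨ y ∈ D := Finset.mem_insert.1 (Finset.mem_coe.1 hy)
      by_cases h1 : x = a
      · by_cases h2 : y = a
        · rw [h1, h2]
        · exfalso
          have hyD : y ∈ D := by
            rcases hy' with h | h
            · exact absurd h h2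
            · exact h
          rw [h1, Function.update_self, Function.update_of_ne h2] at hxy
          exact hb' y hyD hxy.symm
      · have hxD : x ∈ D := by
          rcases hx' with h | h
          · exact absurd h h1
          · exact h
        by_cases h2 : y = a
        · exfalso
          rw [h2, Function.update_self, Function.update_of_ne h1] at hxy
          exact hb' x hxD hxy
        · have hyD : y ∈ D := by
            rcases hy' with h | h
            · exact absurd h h2
            · exact h
          rw [Function.update_of_ne h1, Function.update_of_ne h2] at hxy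
          exact hinj (Finset.mem_coe.2 hxD) (Finset.mem_coe.2 hyD) hxy
    · intro d
      have e1 := FNPerm_kl D a (fun x => x + Function.update π a b x) (fun x => x + π x) (by
        intro x hx
        have : x ≠ a := by
          rintro rfl
          exact haD hx
        simp only [Function.update_of_ne this]) d
      simp only [Function.update_self] at e1
      by_cases h1 : a + b = d
      · rw [if_pos h1] at e1
        rw [h1] at hfull
        omega
      · rw [if_neg h1] at e1
        have := hc d
        omega
  · have hfull4 : (D.filter (fun x => x + π x = a + b)).card = 4 :=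
      le_antisymm (hc _) (not_lt.1 hfull)
    have hswapeq : ∀ c, a + π c = c + b → c + π c = a + b := by
      intro c h
      have h1 : c + π c = (a + a) + (c + π c) := by rw [hA a, zero_add]
      rw [h1]
      have h2 : (a + a) + (c + π c) = a + c + (a + π c) := by abel
      rw [h2, h]
      have h3 : a + c + (c + b) = a + b + (c + c) := by abel
      rw [h3, hA c, add_zero]
    have hane : ∀ c ∈ D, a + π c ≠ a + b := by
      intro c hcD h
      exact hb' c hcD (add_left_cancel h)
    have hcne : ∀ c ∈ D, c + b ≠ a + b := by
      intro c hcD h
      have : c = a := add_right_cancel h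
      exact haD (this ▸ hcD)
    by_cases hall : ∀ x ∈ D, x + π x = a + b
    · have hDcard : D.card = 4 := by
        rw [← hfull4, Finset.filter_true_of_mem hall]
      have hne : D.Nonempty := by
        rw [← Finset.card_pos, hDcard]
        norm_num
      obtain ⟨c, hcD⟩ := hne
      obtain ⟨π', h1, h2, h3⟩ := FNPerm_swap Y D π hmap hinj a b c haD hbY hbD hcD
      refine ⟨insert a D, π', hsub, hcard, h1, h2, ?_⟩
      intro d
      have h4 := h3 d
      by_cases hd : d = a + b
      · rw [hd] at h4 ⊢
        rw [if_neg (hcne c hcD), if_neg (hane c hcD)] at h4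
        have h5 : ((D.erase c).filter (fun x => x + π x = a + b)).card ≤ (D.erase c).card :=
          Finset.card_filter_le _ _
        have h6 := Finset.card_erase_of_mem hcD
        omega
      · have h5 : (D.erase c).filter (fun x => x + π x = d) = ∅ := by
          apply Finset.filter_false_of_mem
          intro x hx hx2
          exact hd (hx2 ▸ hall x (Finset.mem_of_mem_erase hx))
        rw [h5, Finset.card_empty] at h4
        have h6 : (if c + b = d then 1 else 0) ≤ 1 := by
          split_ifs <;> norm_num
        have h7 : (if a + π c = d then 1 else 0) ≤ 1 := by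
          split_ifs <;> norm_num
        omega
    · obtain ⟨x0, hx0D, hx0⟩ : ∃ x ∈ D, x + π x ≠ a + b := by
        by_contra hcon
        apply hall
        intro x hx
        by_contra hx2
        exact hcon ⟨x, hx, hx2⟩
      set D' := D.filter (fun x => x + π x ≠ a + b) with hD'
      have hD'pos : 0 < D'.card := by
        rw [Finset.card_pos]
        exact ⟨x0, Finset.mem_filter.2 ⟨hx0D, hx0⟩⟩
      set S : Finset A := (D'.image (fun x => x + π x)).filter
        (fun d => (D.filter (fun x => x + π x = d)).card = 4) with hS
      have hS4 : 4 * S.card ≤ D'.card := by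
        have h1 : (D'.filter (fun x => x + π x ∈ S)).card =
            ∑ d ∈ S, ((D'.filter (fun x => x + π x ∈ S)).filter (fun x => x + π x = d)).card := by
          apply Finset.card_eq_sum_card_fiberwise
          intro x hx
          exact (Finset.mem_filter.1 (Finset.mem_coe.1 hx)).2
        have h2 : ∀ d ∈ S,
            ((D'.filter (fun x => x + π x ∈ S)).filter (fun x => x + π x = d)).card = 4 := by
          intro d hd
          have hd1 := (Finset.mem_filter.1 hd).2
          have hd2 : d ≠ a + b := by
            obtain ⟨y, hy, hyd⟩ := Finset.mem_image.1 (Finset.mem_filter.1 hd).1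
            rw [← hyd]
            exact (Finset.mem_filter.1 hy).2
          rw [← hd1]
          congr 1
          ext x
          simp only [Finset.mem_filter, hD']
          constructor
          · rintro ⟨⟨⟨h1, h2⟩, h3⟩, h4⟩
            exact ⟨h1, h4⟩
          · rintro ⟨h1, h2⟩
            refine ⟨⟨⟨h1, ?_⟩, ?_⟩, h2⟩
            · rw [h2]
              exact hd2
            · rw [h2]
              exact hd
        rw [Finset.sum_congr rfl h2, Finset.sum_const, smul_eq_mul] at h1
        have h3 : (D'.filter (fun x => x + π x ∈ S)).card ≤ D'.card := Finset.card_filter_le _ _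
        omega
      have hB1 : (D'.filter (fun c => a + π c ∈ S)).card ≤ S.card := by
        apply Finset.card_le_card_of_injOn (fun c => a + π c)
        · intro c hc1
          exact (Finset.mem_filter.1 (Finset.mem_coe.1 hc1)).2
        · intro c hc1 c' hc2 h
          have h1 : c ∈ D := (Finset.mem_filter.1 (Finset.mem_filter.1 (Finset.mem_coe.1 hc1)).1).1
          have h2 : c' ∈ D := (Finset.mem_filter.1 (Finset.mem_filter.1 (Finset.mem_coe.1 hc2)).1).1
          exact hinj (Finset.mem_coe.2 h1) (Finset.mem_coe.2 h2) (add_left_cancel h)
      have hB2 : (D'.filter (fun c => c + b ∈ S)).card ≤ S.card := by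
        apply Finset.card_le_card_of_injOn (fun c => c + b)
        · intro c hc1
          exact (Finset.mem_filter.1 (Finset.mem_coe.1 hc1)).2
        · intro c hc1 c' hc2 h
          exact add_right_cancel h
      obtain ⟨c, hcD', hc1, hc2⟩ : ∃ c ∈ D', a + π c ∉ S ∧ c + b ∉ S := by
        by_contra hcon
        have hsub2 : D' ⊆ (D'.filter (fun c => a + π c ∈ S)) ∪ (D'.filter (fun c => c + b ∈ S)) := by
          intro c hcD'
          by_cases h1 : a + π c ∈ S
          · exact Finset.mem_union_left _ (Finset.mem_filter.2 ⟨hcD', h1⟩)
          · by_cases h2 : c + b ∈ S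
            · exact Finset.mem_union_right _ (Finset.mem_filter.2 ⟨hcD', h2⟩)
            · exact absurd ⟨c, hcD', h1, h2⟩ hcon
        have h1 := Finset.card_le_card hsub2
        have h2 := Finset.card_union_le (D'.filter (fun c => a + π c ∈ S))
          (D'.filter (fun c => c + b ∈ S))
        omega
      have hcD : c ∈ D := (Finset.mem_filter.1 hcD').1
      have hcne2 : c + π c ≠ a + b := (Finset.mem_filter.1 hcD').2
      obtain ⟨π', h1, h2, h3⟩ := FNPerm_swap Y D π hmap hinj a b c haD hbY hbD hcD
      refine ⟨insert a D, π', hsub, hcard, h1, h2, ?_⟩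
      intro d
      have h4 := h3 d
      have hle : ((D.erase c).filter (fun x => x + π x = d)).card ≤
          (D.filter (fun x => x + π x = d)).card :=
        Finset.card_le_card (Finset.filter_subset_filter _ (Finset.erase_subset _ _))
      have hcd := hc d
      have hnotS : d ∉ S → d ≠ a + b → (D.filter (fun x => x + π x = d)).card ≤ 3 := by
        intro hdS hdne
        by_contra hcon
        have h44 : (D.filter (fun x => x + π x = d)).card = 4 := by omega
        apply hdS
        refine Finset.mem_filter.2 ⟨?_, h44⟩
        have hpos : 0 < (D.filter (fun x => x + π x = d)).card := by omega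
        obtain ⟨y, hy⟩ := Finset.card_pos.1 hpos
        have hy1 := Finset.mem_filter.1 hy
        refine Finset.mem_image.2 ⟨y, Finset.mem_filter.2 ⟨hy1.1, ?_⟩, hy1.2⟩
        rw [hy1.2]
        exact hdne
      by_cases hd1 : c + b = d
      · have hd2 : a + π c ≠ d := by
          intro h
          exact hcne2 (hswapeq c (h.trans hd1.symm))
        rw [if_pos hd1, if_neg hd2] at h4
        have := hnotS (hd1 ▸ hc2) (hd1 ▸ hcne c hcD)
        omega
      · by_cases hd2 : a + π c = d
        · rw [if_neg hd1, if_pos hd2] at h4
          have := hnotS (hd2 ▸ hc1) (hd2 ▸ hane c hcD)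
          omega
        · rw [if_neg hd1, if_neg hd2] at h4
          omega

theorem exists_perm {A : Type*} [AddCommGroup A] [DecidableEq A] (hA : ∀ x : A, x + x = 0)
    (Y : Finset A) : ∃ π : A → A, (∀ x ∈ Y, π x ∈ Y) ∧ Set.InjOn π Y ∧
      ∀ d : A, (Y.filter (fun x => x + π x = d)).card ≤ 4 := by
  have main : ∀ m : ℕ, m ≤ Y.card → ∃ (D : Finset A) (π : A → A), D ⊆ Y ∧ D.card = m ∧
      (∀ x ∈ D, π x ∈ Y) ∧ Set.InjOn π D ∧
      ∀ d, (D.filter (fun x => x + π x = d)).card ≤ 4 := by
    intro m
    induction m with
    | zero =>
      intro _
      refine ⟨∅, id, Finset.empty_subset _, Finset.card_empty, ?_, ?_, ?_⟩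
      · intro x hx
        exact absurd hx (Finset.notMem_empty _)
      · intro x hx
        exact absurd (Finset.mem_coe.1 hx) (Finset.notMem_empty _)
      · intro d
        simp
    | succ m ih =>
      intro hm
      obtain ⟨D, π, h1, h2, h3, h4, h5⟩ := ih (by omega)
      obtain ⟨D', π', k1, k2, k3, k4, k5⟩ :=
        FNPerm_step hA Y D π h1 (by omega) h3 h4 h5
      exact ⟨D', π', k1, by omega, k3, k4, k5⟩
  obtain ⟨D, π, h1, h2, h3, h4, h5⟩ := main Y.card le_rfl
  have hDY : D = Y := Finset.eq_of_subset_of_card_le h1 (by omega)
  subst hDY
  exact ⟨π, h3, h4, h5⟩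

end Pool.Agent.H60.FN
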