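import Mathlib
import Pool.Agent.H60.FN.Defs
import Pool.Agent.H60.FN.Perm

/-!
# FNFill: filling the holes of a labelling with leaves

`J = A × C`, `L` the set of available leaves.  For every `a : A` there is a vertex `v ∈ E` with label
`(a, 0)` which has at least `4 * (card C - 1)` children in `L` (for `a = 0` it is the root).

Proof of `exists_inj_fib`.  For every `v` there is `φ v : S → V` injective on `Y.filter (w · = v)`
with values in `L.filter (p · = v)` (from `h v`, e.g. `Finset.exists_subset_card_eq` +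
`Finset.equivOfCardEq`, or `Finset.card_le_card_iff_...`/`Function.Embedding`; if the fibre is empty
any function; `V` has the element `v`).  Put `f y = φ (w y) y`.  `f y = f y'` implies
`w y = p (f y) = p (f y') = w y'`, then injectivity of `φ (w y)`.

Proof of `lab_fill`.  Choose `vtx a ∈ E` with `g (vtx a) = (a, 0)` and the bound.  For `c : C` let
`Y c = univ.filter (fun a => (a, c) ∉ E.image g)` and `π c` from `exists_perm hA (Y c)`.
Let `Y = univ.filter (fun y : A × C => y ∉ E.image g)` and `w y = vtx (y.1 + π y.2 y.1)`.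
For a vertex `v`: if `y ∈ Y` and `w y = v` then `g v = (y.1 + π y.2 y.1, 0)`, so with `a0 = (g v).1`:
`Y.filter (w · = v)` is contained in the union over `c` of the `(a, c)`, `a ∈ Y c`, `a + π c a = a0`,
with at most `4` elements for each `c`, and none for `c = 0` as `Y 0 = ∅` (all `(a, 0)` are labels).
So its cardinality is at most `4 * (card C - 1)`; if it is nonempty then `v = vtx a0`
(`g` injective on `E`, or directly `w y = v`) and the bound is at most `(L.filter (p · = v)).card`.
`exists_inj_fib` gives `f` injective on `Y`, `f y ∈ L`, `p (f y) = w y`.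
`E2 = E ∪ Y.image f`, `g2 v = g v` on `E`, `g2 (f y) = y` (`Function.invFunOn f Y`, as `f y ∉ E`).
`E2.card = E.card + Y.card = card (A × C)` (`Y` is the complement of `E.image g`).
`g2` is injective on `E2` with image `univ`.  The colours: on `E` they are `E.image g` (`hg.im`; parents
are in `E`), and for `y ∈ Y`: `g2 (f y) + g2 (p (f y)) = y + (y.1 + π y.2 y.1, 0) = (π y.2 y.1, y.2)`
(exponent two), which is again in `Y` and different for different `y`.  So the image of the colours
contains `E.image g` and (by counting, `y ↦ (π y.2 y.1, y.2)` is injective from `Y` to `Y`, hence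
onto) `Y`; it is `univ`.
-/

set_option autoImplicit false

open Finset

namespace Pool.Agent.H60.FN

open Pool.Agent.H57.SS

theorem exists_inj_fib {V S : Type*} [DecidableEq V] [DecidableEq S] {p : V → V} (L : Finset V)
    (Y : Finset S) (w : S → V)
    (h : ∀ v, (Y.filter (fun y => w y = v)).card ≤ (L.filter (fun l => p l = v)).card) :
    ∃ f : S → V, (∀ y ∈ Y, f y ∈ L ∧ p (f y) = w y) ∧ Set.InjOn f Y := by
  classical
  have hemb : ∀ v, Nonempty ({y // y ∈ Y.filter (fun y => w y = v)} ↪
      {l // l ∈ L.filter (fun l => p l = v)}) := by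
    intro v
    apply Function.Embedding.nonempty_of_card_le
    simpa only [Fintype.card_coe] using h v
  obtain ⟨φ, -⟩ : ∃ φ : (∀ v, {y // y ∈ Y.filter (fun y => w y = v)} ↪
      {l // l ∈ L.filter (fun l => p l = v)}), True := ⟨fun v => (hemb v).some, trivial⟩
  set f : S → V := fun y => if hy : y ∈ Y then (φ (w y) ⟨y, mem_filter.2 ⟨hy, rfl⟩⟩ : V) else w y
    with hf
  have hfv : ∀ v : V, ∀ y : S, ∀ hy : y ∈ Y, ∀ hv : w y = v,
      f y = (φ v ⟨y, mem_filter.2 ⟨hy, hv⟩⟩ : V) := by
    intro v y hy hv
    subst hv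
    simp only [hf, dif_pos hy]
  have hfL : ∀ y ∈ Y, f y ∈ L ∧ p (f y) = w y := by
    intro y hy
    have h1 := (φ (w y) ⟨y, mem_filter.2 ⟨hy, rfl⟩⟩).2
    rw [mem_filter, ← hfv (w y) y hy rfl] at h1
    exact h1
  refine ⟨f, hfL, ?_⟩
  intro y hy y' hy' hyy
  have hy1 : y ∈ Y := hy
  have hy2 : y' ∈ Y := hy'
  have hw : w y' = w y := by
    rw [← (hfL y hy1).2, ← (hfL y' hy2).2, hyy]
  have h1 := hfv (w y) y hy1 rfl
  have h2 := hfv (w y) y' hy2 hw
  have h3 : φ (w y) ⟨y, mem_filter.2 ⟨hy1, rfl⟩⟩ = φ (w y) ⟨y', mem_filter.2 ⟨hy2, hw⟩⟩ := by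
    apply Subtype.ext
    rw [← h1, ← h2]
    exact hyy
  have h4 := (φ (w y)).injective h3
  exact congrArg Subtype.val h4

theorem lab_fill {V A C : Type*} [DecidableEq V] [AddCommGroup A] [DecidableEq A] [Fintype A]
    [AddCommGroup C] [DecidableEq C] [Fintype C] (hA : ∀ x : A, x + x = 0) {p : V → V} {r : V}
    {E L : Finset V} (hr : r ∈ E) (hpE : ∀ v ∈ E, p v ∈ E) (hEL : Disjoint E L)
    {g : V → A × C} (hg : Lab p r E g)
    (hZ : ∀ a : A, ∃ v ∈ E, g v = (a, 0) ∧
      4 * Fintype.card C ≤ (L.filter (fun l => p l = v)).card + 4) :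
    ∃ E2 : Finset V, E ⊆ E2 ∧ E2 ⊆ E ∪ L ∧ E2.card = Fintype.card (A × C) ∧
      PLab p r E2 (A × C) := by
  classical
  choose vtx hvE hvg hvL using hZ
  obtain ⟨I, hI⟩ : ∃ I : Finset (A × C), I = E.image g := ⟨_, rfl⟩
  have hperm := fun c : C => exists_perm hA (univ.filter (fun a : A => (a, c) ∉ I))
  choose π hπY hπinj hπ4 using hperm
  obtain ⟨Y, hY⟩ : ∃ Y : Finset (A × C), Y = univ.filter (fun y => y ∉ I) := ⟨_, rfl⟩
  have hYm : ∀ y, y ∈ Y ↔ y ∉ I := by
    intro y
    rw [hY, mem_filter]
    simp only [mem_univ, true_and]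
  obtain ⟨w, hw⟩ : ∃ w : A × C → V, ∀ y, w y = vtx (y.1 + π y.2 y.1) :=
    ⟨fun y => vtx (y.1 + π y.2 y.1), fun y => rfl⟩
  have hI0 : ∀ a : A, (a, (0 : C)) ∈ I := fun a => by
    rw [hI]
    exact mem_image.2 ⟨vtx a, hvE a, hvg a⟩
  have hwg : ∀ y, g (w y) = (y.1 + π y.2 y.1, 0) := fun y => by rw [hw y, hvg]
  have hfib : ∀ v, (Y.filter (fun y => w y = v)).card ≤ (L.filter (fun l => p l = v)).card := by
    intro v
    rcases (Y.filter (fun y => w y = v)).eq_empty_or_nonempty with he | ⟨y0, hy0⟩
    · rw [he]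
      simp
    · rw [mem_filter] at hy0
      obtain ⟨a0, ha0⟩ : ∃ a0 : A, a0 = y0.1 + π y0.2 y0.1 := ⟨_, rfl⟩
      have hv : v = vtx a0 := by rw [← hy0.2, hw, ha0]
      have h1 : (Y.filter (fun y => w y = v)).card ≤ 4 * (Fintype.card C - 1) := by
        have hsub : Y.filter (fun y => w y = v) ⊆ (univ.erase (0 : C)).biUnion
            (fun c => ((univ.filter (fun a : A => (a, c) ∉ I)).filter
              (fun a => a + π c a = a0)).image (fun a => (a, c))) := by
          intro y hy
          rw [mem_filter, hYm] at hy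
          obtain ⟨hyI, hyw⟩ := hy
          have e : (y.1 + π y.2 y.1, (0 : C)) = (a0, 0) := by
            rw [← hwg y, hyw, hv, hvg]
          have e1 : y.1 + π y.2 y.1 = a0 := congrArg Prod.fst e
          rw [mem_biUnion]
          refine ⟨y.2, ?_, ?_⟩
          · rw [mem_erase]
            refine ⟨fun h0 => hyI ?_, mem_univ _⟩
            have h5 := hI0 y.1
            rw [← h0] at h5
            exact h5
          · rw [mem_image]
            refine ⟨y.1, ?_, rfl⟩
            rw [mem_filter, mem_filter]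
            exact ⟨⟨mem_univ _, hyI⟩, e1⟩
        calc (Y.filter (fun y => w y = v)).card ≤ _ := card_le_card hsub
          _ ≤ ∑ c ∈ univ.erase (0 : C), 4 :=
            card_biUnion_le.trans (sum_le_sum (fun c _ => card_image_le.trans (hπ4 c a0)))
          _ = 4 * (Fintype.card C - 1) := by
            rw [sum_const, card_erase_of_mem (mem_univ _), card_univ, smul_eq_mul, mul_comm]
      have h2 := hvL a0
      rw [← hv] at h2
      omega
  obtain ⟨f, hf, hfinj⟩ := exists_inj_fib L Y w hfib
  have hfL : ∀ y ∈ Y, f y ∈ L := fun y hy => (hf y hy).1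
  have hfE : ∀ y ∈ Y, f y ∉ E := fun y hy h => disjoint_left.1 hEL h (hfL y hy)
  obtain ⟨F, hF⟩ : ∃ F : V → A × C, ∀ v, F v = if v ∈ E then g v else Function.invFunOn f Y v :=
    ⟨fun v => if v ∈ E then g v else Function.invFunOn f Y v, fun v => rfl⟩
  have hFE : ∀ v ∈ E, F v = g v := fun v hv => by rw [hF, if_pos hv]
  have hFf : ∀ y ∈ Y, F (f y) = y := by
    intro y hy
    rw [hF, if_neg (hfE y hy)]
    exact hfinj.leftInvOn_invFunOn (mem_coe.2 hy)
  have hEF : E.image F = I := by
    rw [hI]
    exact image_congr (fun v hv => hFE v hv)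
  have himg : (E ∪ Y.image f).image F = univ := by
    have e2 : (Y.image f).image F = Y := by
      ext y
      rw [mem_image]
      constructor
      · rintro ⟨v, hv, rfl⟩
        rw [mem_image] at hv
        obtain ⟨y', hy', rfl⟩ := hv
        rw [hFf y' hy']
        exact hy'
      · intro hy
        exact ⟨f y, mem_image_of_mem f hy, hFf y hy⟩
    rw [image_union, hEF, e2]
    ext y
    simp only [mem_union, mem_univ, iff_true, hYm]
    exact em _
  have hcard : (E ∪ Y.image f).card = Fintype.card (A × C) := by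
    have hd : Disjoint E (Y.image f) := by
      rw [disjoint_right]
      intro v hv
      rw [mem_image] at hv
      obtain ⟨y, hy, rfl⟩ := hv
      exact hfE y hy
    have hIc : I.card = E.card := by
      rw [hI]
      exact card_image_of_injOn hg.inj
    have hYc : Y = Iᶜ := by
      ext y
      rw [hYm, mem_compl]
    rw [card_union_of_disjoint hd, card_image_of_injOn hfinj, hYc, card_compl, hIc]
    have h3 : I.card ≤ Fintype.card (A × C) := card_le_univ _
    omega
  refine ⟨E ∪ Y.image f, subset_union_left, ?_, hcard, F, ?_, ?_, ?_⟩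
  · exact union_subset_union (Subset.refl _) (image_subset_iff.2 hfL)
  · rw [hFE r hr, hg.root]
  · rw [← card_image_iff, himg, card_univ, hcard]
  · rw [himg]
    apply Finset.eq_univ_of_forall
    intro x
    by_cases hx : x ∈ I
    · have h5 : x ∈ E.image (fun v => g v + g (p v)) := by
        rw [hg.im, ← hI]
        exact hx
      rw [mem_image] at h5
      obtain ⟨v, hv, hvx⟩ := h5
      refine mem_image.2 ⟨v, mem_union_left _ hv, ?_⟩
      rw [hFE v hv, hFE (p v) (hpE v hv)]
      exact hvx
    · have hψ : Y.image (fun y : A × C => ((π y.2 y.1, y.2) : A × C)) = Y := by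
        apply eq_of_subset_of_card_le
        · intro z hz
          rw [mem_image] at hz
          obtain ⟨y, hy, rfl⟩ := hz
          have h6 := hπY y.2 y.1 (by
            rw [mem_filter]
            exact ⟨mem_univ _, (hYm y).1 hy⟩)
          rw [mem_filter] at h6
          exact (hYm _).2 h6.2
        · rw [card_image_of_injOn]
          intro y hy y' hy' hyy
          have hy1 : y ∈ Y := hy
          have hy2 : y' ∈ Y := hy'
          have hyy2 : ((π y.2 y.1, y.2) : A × C) = (π y'.2 y'.1, y'.2) := hyy
          have e2 : y.2 = y'.2 := (Prod.mk.inj hyy2).2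
          have e1 : π y.2 y.1 = π y'.2 y'.1 := (Prod.mk.inj hyy2).1
          rw [← e2] at e1
          have e3 : y.1 = y'.1 := by
            apply hπinj y.2 _ _ e1
            · rw [mem_coe, mem_filter]
              exact ⟨mem_univ _, (hYm y).1 hy1⟩
            · rw [mem_coe, mem_filter, e2]
              exact ⟨mem_univ _, (hYm y').1 hy2⟩
          exact Prod.ext e3 e2
      have h7 : x ∈ Y.image (fun y : A × C => ((π y.2 y.1, y.2) : A × C)) := by
        rw [hψ]
        exact (hYm x).2 hx
      rw [mem_image] at h7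
      obtain ⟨y, hy, hyx⟩ := h7
      refine mem_image.2 ⟨f y, mem_union_right _ (mem_image_of_mem f hy), ?_⟩
      rw [hFf y hy, (hf y hy).2, hFE (w y) (by rw [hw]; exact hvE _), hwg, ← hyx]
      apply Prod.ext
      · change y.1 + (y.1 + π y.2 y.1) = π y.2 y.1
        rw [← add_assoc, hA, zero_add]
      · change y.2 + 0 = y.2
        rw [add_zero]

end Pool.Agent.H60.FN
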