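import Mathlib
import Pool.Agent.H60.FN.Exact
import Pool.Agent.H60.FN.Fill

/-!
# FNScale: one scale suffices

Proof.  `H` = the larger one of the two sets `W.filter (d · % 2 = 0)`, `W.filter (d · % 2 = 1)`:
`8 * 2 ^ j <= H.card`.  `J = A × C`, `A = Fin j → ZMod 2`, `C = Fin (k - j) → ZMod 2`.  `card J = 2 ^ k`.
`χ (a, c) = c 0` (`0 : Fin (k - j)` exists since `j < k`; an `AddMonoidHom`), `Z = univ.filter (fun x => x.2 = 0)`,
`Z.card = 2 ^ j`, `2 * (kernel of χ).card = card J` (translation by an element with `χ = 1` is a bijection from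
the kernel onto its complement).  `exact_lab` gives `g` with `Lab p r E g` and for every `z ∈ Z`, `z ≠ 0`
a vertex `v ∈ H` with `g v = z`.  `lab_fill` with `L = univ \ E`: for `a = 0` take `v = r`, for `a ≠ 0`
the vertex of `H ⊆ W` (`card C = 2 ^ (k - j)`, `hm`).  We get `E2 ⊇ E`, `E2.card = 2 ^ k`, `PLab p r E2 (A × C)`,
then `PLab p r E2 (Fin k → ZMod 2)` by `exists_addEquiv` and `PLab.congr` (see the end of `plab_lr` in
`Pool/Agent/H67/CT/LR.lean`), and `plab_lr` with `E = E2`, `E' = univ`, `k' = n`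
(`1 <= k` as `j < k`; `p v ∈ E ⊆ E2`).
-/

set_option autoImplicit false

open Finset

namespace Pool.Agent.H60.FN

open Pool.Agent.H57.SS Pool.Agent.H67.CT

theorem Scale_half {J : Type*} [AddCommGroup J] [DecidableEq J] [Fintype J]
    (hJ : ∀ x : J, x + x = 0) (χ : J →+ ZMod 2) (e : J) (he : χ e = 1) :
    2 * (univ.filter (fun x : J => χ x = 0)).card = Fintype.card J := by
  have h1 := Finset.card_filter_add_card_filter_not (s := (univ : Finset J)) (fun x : J => χ x = 0)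
  have h2 : (univ.filter (fun x : J => χ x = 0)).card = (univ.filter (fun x : J => ¬ χ x = 0)).card := by
    refine Finset.card_bij' (fun x _ => x + e) (fun x _ => x + e) ?_ ?_ ?_ ?_
    · intro x hx
      rw [mem_filter] at hx ⊢
      refine ⟨mem_univ _, ?_⟩
      rw [map_add, hx.2, he]
      decide
    · intro x hx
      rw [mem_filter] at hx ⊢
      refine ⟨mem_univ _, ?_⟩
      have h3 : ∀ y : ZMod 2, y ≠ 0 → y + 1 = 0 := by decide
      rw [map_add, he]
      exact h3 _ hx.2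
    · intro x _
      rw [add_assoc, hJ, add_zero]
    · intro x _
      rw [add_assoc, hJ, add_zero]
  rw [card_univ] at h1
  omega

theorem plab_scale {V : Type*} [Fintype V] [DecidableEq V] {p : V → V} {r : V} (hpr : p r = r)
    {d : V → ℕ} (hd : ∀ v, v ≠ r → d v = d (p v) + 1) {n k j : ℕ}
    (hcV : Fintype.card V = 2 ^ n) (hU : Closed p r (univ : Finset V)) {E : Finset V}
    (hE : Closed p r E) (hpE : ∀ v, p v ∈ E) (hjk : j < k)
    (hsize : 8 * E.card + 4 * 2 ^ j < 2 ^ k) {W : Finset V} (hWE : W ⊆ E) (hrW : r ∉ W)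
    (hW : 16 * 2 ^ j ≤ W.card)
    (hm : ∀ w ∈ insert r W,
      4 * 2 ^ (k - j) ≤ ((univ \ E).filter (fun v => p v = w)).card + 4) :
    PLab p r univ (Fin n → ZMod 2) := by
  have hcA : Fintype.card (Fin j → ZMod 2) = 2 ^ j := by simp
  have hcC : Fintype.card (Fin (k - j) → ZMod 2) = 2 ^ (k - j) := by simp
  have hJ : ∀ x : (Fin j → ZMod 2) × (Fin (k - j) → ZMod 2), x + x = 0 := fun x =>
    Prod.ext (add_self_fin j x.1) (add_self_fin (k - j) x.2)
  have hcJ : Fintype.card ((Fin j → ZMod 2) × (Fin (k - j) → ZMod 2)) = 2 ^ k := by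
    rw [Fintype.card_prod, hcA, hcC, ← pow_add]
    congr 1
    omega
  have hkj : 0 < k - j := by omega
  let χ : (Fin j → ZMod 2) × (Fin (k - j) → ZMod 2) →+ ZMod 2 :=
    (Pi.evalAddMonoidHom (fun _ : Fin (k - j) => ZMod 2) ⟨0, hkj⟩).comp
      (AddMonoidHom.snd (Fin j → ZMod 2) (Fin (k - j) → ZMod 2))
  have hχd : ∀ x, χ x = x.2 ⟨0, hkj⟩ := fun x => rfl
  have hχe : χ (0, fun _ => 1) = 1 := rfl
  have hχ := Scale_half hJ χ _ hχe
  obtain ⟨Z, hZ⟩ : ∃ Z : Finset ((Fin j → ZMod 2) × (Fin (k - j) → ZMod 2)),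
      Z = univ.filter (fun x => x.2 = 0) := ⟨_, rfl⟩
  have hmZ : ∀ x, x ∈ Z ↔ x.2 = 0 := by
    intro x
    rw [hZ, mem_filter]
    exact ⟨fun h => h.2, fun h => ⟨mem_univ _, h⟩⟩
  have hcZ : Z.card = 2 ^ j := by
    have h1 : Z = (univ : Finset (Fin j → ZMod 2)) ×ˢ {(0 : Fin (k - j) → ZMod 2)} := by
      ext x
      rw [hmZ, mem_product, mem_singleton]
      exact ⟨fun h => ⟨mem_univ _, h⟩, fun h => h.2⟩
    rw [h1, card_product, card_singleton, mul_one, card_univ, hcA]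
  have hZ0 : (0 : (Fin j → ZMod 2) × (Fin (k - j) → ZMod 2)) ∈ Z := (hmZ _).2 rfl
  have hZadd : ∀ x ∈ Z, ∀ y ∈ Z, x + y ∈ Z := by
    intro x hx y hy
    rw [hmZ] at hx hy ⊢
    rw [Prod.snd_add, hx, hy, add_zero]
  have hZχ : ∀ z ∈ Z, χ z = 0 := by
    intro z hz
    rw [hχd, (hmZ z).1 hz]
    rfl
  -- the parity class
  obtain ⟨ε, hε⟩ : ∃ ε : ℕ, 8 * 2 ^ j ≤ (W.filter (fun v => d v % 2 = ε)).card := by
    have h1 := Finset.card_filter_add_card_filter_not (s := W) (fun v => d v % 2 = 0)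
    have h2 : (W.filter (fun v => ¬ d v % 2 = 0)) = (W.filter (fun v => d v % 2 = 1)) := by
      apply filter_congr
      intro v _
      omega
    rw [h2] at h1
    by_cases h3 : 8 * 2 ^ j ≤ (W.filter (fun v => d v % 2 = 0)).card
    · exact ⟨0, h3⟩
    · exact ⟨1, by omega⟩
  have hHW : W.filter (fun v => d v % 2 = ε) ⊆ W := filter_subset _ _
  obtain ⟨g, hg, hgz⟩ := exact_lab hJ hpr hd χ hχ ⟨_, hχe⟩ hZ0 hZadd hZχ
    (H := W.filter (fun v => d v % 2 = ε)) (ε := ε) (fun h => hrW (hHW h))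
    (fun v hv => (mem_filter.1 hv).2) hE (hHW.trans hWE) (by rw [hcZ]; exact hε)
    (by rw [hcZ, hcJ]; exact hsize)
  obtain ⟨E2, hE2, -, hcE2, hlab⟩ := lab_fill (A := Fin j → ZMod 2) (C := Fin (k - j) → ZMod 2)
    (add_self_fin j) hE.root (fun v _ => hpE v) (L := univ \ E) disjoint_sdiff hg (by
      intro a
      by_cases ha : a = 0
      · refine ⟨r, hE.root, ?_, ?_⟩
        · rw [hg.root, ha]
          rfl
        · rw [hcC]
          exact hm r (mem_insert_self _ _)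
      · obtain ⟨v, hv, hgv⟩ := hgz (a, 0) ((hmZ _).2 rfl) (fun h => ha (congrArg Prod.fst h))
        refine ⟨v, hWE (hHW hv), hgv, ?_⟩
        rw [hcC]
        exact hm v (mem_insert_of_mem (hHW hv)))
  rw [hcJ] at hcE2
  obtain ⟨e⟩ := exists_addEquiv ((Fin j → ZMod 2) × (Fin (k - j) → ZMod 2)) hJ k hcJ
  exact plab_lr (hE2 hE.root) hU (subset_univ _) (by omega) hcE2 (by rw [card_univ, hcV])
    (fun v _ => hE2 (hpE v)) (hlab.congr e)

end Pool.Agent.H60.FN
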