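import Mathlib
import Pool.Agent.H60.FN.Scale

/-!
# FNCoreA: the closed core, and the case of a root with many leaves

Proof of `exists_core`.  `exists_evenClosure` (`Pool/Agent/H57/SS/Core.lean`) with `X = univ`, `A = A0`
gives `M`; `E = A0 ∪ M`.  Closed: root in `A0`, all parents in `A0`, all fibres even.
`E.card <= A0.card + M.card <= 2 * A0.card` (`card_oddPar_le`).  The map `p` from `M` to `oddPar p A0` is
onto between sets of the same cardinality, so injective: every fibre of `p` on `M` has at most one
element.  `(univ \ A0).filter (p · = w)` is contained in `(univ \ E).filter (p · = w) ∪ M.filter (p · = w)`.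

Proof of `plab_root`.  `exists_plab` (`Pool/Agent/H57/SS/Rooted.lean`) labels `E` with `Fin k → ZMod 2`
(`2 * E.card < 2 ^ k + 4`).  Choose `F ⊆ (univ \ E).filter (p · = r)` with `F.card = 2 ^ k - E.card`
and use `plab_union`: `E ∪ F` has `2 ^ k` elements; then `plab_lr` with `E' = univ`.
-/

set_option autoImplicit false

open Finset

namespace Pool.Agent.H60.FN

open Pool.Agent.H57.SS Pool.Agent.H67.CT

section

variable {V : Type*} [Fintype V] [DecidableEq V]

theorem exists_core {p : V → V} {r : V} (hev : EvenFib p (univ : Finset V)) {A0 : Finset V}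
    (hr : r ∈ A0) (hpA : ∀ v, p v ∈ A0) :
    ∃ E : Finset V, A0 ⊆ E ∧ Closed p r E ∧ E.card ≤ 2 * A0.card ∧
      ∀ w, ((univ \ A0).filter (fun v => p v = w)).card
        ≤ ((univ \ E).filter (fun v => p v = w)).card + 1 := by
  obtain ⟨M, -, hdis, hAM, hMc, hM1, hM2⟩ := exists_evenClosure hev (subset_univ A0)
  have hinj : ∀ w, (M.filter (fun v => p v = w)).card ≤ 1 := by
    intro w
    have himg : M.image p = oddPar p A0 := by
      apply Finset.Subset.antisymm
      · intro w hw
        obtain ⟨v, hv, rfl⟩ := mem_image.1 hw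
        exact hM1 v hv
      · intro w hw
        obtain ⟨v, hv, h⟩ := hM2 w hw
        exact mem_image.2 ⟨v, hv, h⟩
    have hI : Set.InjOn p (M : Set V) := by
      rw [← card_image_iff, himg, hMc]
    rw [card_le_one]
    intro a ha b hb
    rw [mem_filter] at ha hb
    exact hI ha.1 hb.1 (ha.2.trans hb.2.symm)
  refine ⟨A0 ∪ M, subset_union_left, ⟨mem_union_left _ hr, fun v _ => mem_union_left _ (hpA v),
    fun w _ => hAM w⟩, ?_, ?_⟩
  · have h1 := card_oddPar_le p A0
    have h2 := card_union_le A0 M
    omega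
  · intro w
    have hsub : (univ \ A0).filter (fun v => p v = w)
        ⊆ (univ \ (A0 ∪ M)).filter (fun v => p v = w) ∪ M.filter (fun v => p v = w) := by
      intro v hv
      rw [mem_filter, mem_sdiff] at hv
      rw [mem_union]
      by_cases hvM : v ∈ M
      · right
        exact mem_filter.2 ⟨hvM, hv.2⟩
      · left
        rw [mem_filter, mem_sdiff, mem_union]
        refine ⟨⟨mem_univ _, ?_⟩, hv.2⟩
        rintro (h | h)
        · exact hv.1.2 h
        · exact hvM h
    refine (card_le_card hsub).trans ((card_union_le _ _).trans ?_)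
    have h1 := hinj w
    omega

theorem plab_root {p : V → V} {r : V} (hpr : p r = r) {d : V → ℕ}
    (hd : ∀ v, v ≠ r → d v = d (p v) + 1) {n k : ℕ} (hk : 1 ≤ k)
    (hcV : Fintype.card V = 2 ^ n) (hU : Closed p r (univ : Finset V)) {E : Finset V}
    (hE : Closed p r E) (hpE : ∀ v, p v ∈ E) (hsize : 2 * E.card ≤ 2 ^ k)
    (hm : 2 ^ k ≤ ((univ \ E).filter (fun v => p v = r)).card) :
    PLab p r univ (Fin n → ZMod 2) := by
  have hJ : Fintype.card (Fin k → ZMod 2) = 2 ^ k := by simp
  have hlab : PLab p r E (Fin k → ZMod 2) := by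
    refine exists_plab (add_self_fin k) hpr hd E.card E rfl hE ?_ ?_
    · rw [hJ]; omega
    · rw [hJ]; omega
  obtain ⟨F, hF, hFc⟩ := exists_subset_card_eq
    (show 2 ^ k - E.card ≤ ((univ \ E).filter (fun v => p v = r)).card by omega)
  have hdis : Disjoint E F := by
    rw [Finset.disjoint_right]
    intro v hv hvE
    exact (mem_sdiff.1 (mem_filter.1 (hF hv)).1).2 hvE
  have hFr : ∀ v ∈ F, p v = r := fun v hv => (mem_filter.1 (hF hv)).2
  have hcc : (E ∪ F).card = 2 ^ k := by
    rw [card_union_of_disjoint hdis]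
    omega
  have h2 := plab_union hE.root hE.parent hlab F hdis hFr (by rw [hJ]; omega)
  exact plab_lr (mem_union_left _ hE.root) hU (subset_univ _) hk hcc (by rw [card_univ, hcV])
    (fun v _ => mem_union_left _ (hpE v)) h2

end

end Pool.Agent.H60.FN
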