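import Mathlib
import Pool.Agent.H60.FN.CoreA

/-!
# FNCore: the core theorem for rooted trees

`A0` is the set of the non-leaves, `(univ \ A0).filter (p · = w)` the set of the leaves at `w`,
`ℓ w` its cardinality.

Proof of `plab_core`.  `I = A0.card >= 1`.  `Closed p r univ` is clear from `hev`.  Let `E` be as in `exists_core`,
`m w = ((univ \ E).filter (p · = w)).card`,
`ℓ w <= m w + 1`.  Let `k` be minimal with `18 * I <= 2 ^ k` (`Nat.find`); so `k >= 1` and `2 ^ k < 36 * I`.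
(1) If `2 ^ k + 1 <= ℓ r`: `plab_root` (`2 * E.card <= 4 * I <= 2 ^ k`).
(2) Otherwise `ℓ r <= 2 ^ k`.  `Vt = A0.filter (t <= ℓ w)` is nonempty (`ht`, `I >= 1`), so `t <= ℓ w <= ℓ r <= 2 ^ k`
for some `w`.  From `4608 * I <= t * Vt.card <= 2 ^ k * Vt.card < 36 * I * Vt.card`: `Vt.card > 128`.
`W = Vt.erase r`, `W.card >= Vt.card - 1`.  Let `j` be maximal with `16 * 2 ^ j <= W.card` (exists as `W.card >= 16`):
`W.card < 32 * 2 ^ j`, so `Vt.card <= 32 * 2 ^ j`.  Hence
`128 * 2 ^ k < 128 * 36 * I = 4608 * I <= t * Vt.card <= t * 32 * 2 ^ j`, so `4 * 2 ^ k < t * 2 ^ j`.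
`16 * 2 ^ j <= W.card <= I <= 2 ^ k` gives `j < k`, and `4 * 2 ^ (k - j) < t`
(`2 ^ k = 2 ^ (k - j) * 2 ^ j`).  `8 * E.card + 4 * 2 ^ j <= 16 * I + I / 4 < 18 * I <= 2 ^ k`.
`hm`: for `w ∈ W`: `m w + 4 >= ℓ w + 3 >= t + 3`; for `w = r`: `ℓ r >= ℓ w` for some `w ∈ Vt`, so also `m r + 4 >= t + 3`.
`plab_scale`.
-/

set_option autoImplicit false

open Finset

namespace Pool.Agent.H60.FN

open Pool.Agent.H57.SS Pool.Agent.H67.CT

theorem plab_core {V : Type*} [Fintype V] [DecidableEq V] {p : V → V} {r : V} (hpr : p r = r)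
    {d : V → ℕ} (hd : ∀ v, v ≠ r → d v = d (p v) + 1) {n : ℕ} (hcV : Fintype.card V = 2 ^ n)
    (hev : EvenFib p (univ : Finset V)) {A0 : Finset V} (hr : r ∈ A0) (hpA : ∀ v, p v ∈ A0)
    (hmax : ∀ w ∈ A0, ((univ \ A0).filter (fun v => p v = w)).card
      ≤ ((univ \ A0).filter (fun v => p v = r)).card) {t : ℕ}
    (ht : 4608 * A0.card ≤
      t * (A0.filter (fun w => t ≤ ((univ \ A0).filter (fun v => p v = w)).card)).card) :
    PLab p r univ (Fin n → ZMod 2) := by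
  obtain ⟨E, hAE, hE, hEc, hEm⟩ := exists_core hev hr hpA
  have hU : Closed p r (univ : Finset V) := ⟨mem_univ _, fun _ _ => mem_univ _, fun w _ => hev w⟩
  have hpE : ∀ v, p v ∈ E := fun v => hAE (hpA v)
  have hI : 1 ≤ A0.card := Finset.card_pos.2 ⟨r, hr⟩
  have hex : ∃ k : ℕ, 18 * A0.card ≤ 2 ^ k := ⟨18 * A0.card, Nat.lt_two_pow_self.le⟩
  obtain ⟨k, hk1, hk2, hk3⟩ : ∃ k : ℕ, 1 ≤ k ∧ 18 * A0.card ≤ 2 ^ k ∧ 2 ^ k < 36 * A0.card := by
    have h1 := Nat.find_spec hex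
    have h0 : Nat.find hex ≠ 0 := by
      intro h
      rw [h, pow_zero] at h1
      omega
    have h2 := Nat.find_min hex (show Nat.find hex - 1 < Nat.find hex by omega)
    refine ⟨Nat.find hex, by omega, h1, ?_⟩
    have h3 : 2 ^ Nat.find hex = 2 * 2 ^ (Nat.find hex - 1) := by
      rw [← pow_succ']
      congr 1
      omega
    rw [h3]
    omega
  by_cases hc : 2 ^ k + 1 ≤ ((univ \ A0).filter (fun v => p v = r)).card
  · refine plab_root hpr hd hk1 hcV hU hE hpE (by omega) ?_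
    have := hEm r
    omega
  rw [not_le] at hc
  obtain ⟨Vt, hVt⟩ : ∃ Vt : Finset V,
      Vt = A0.filter (fun w => t ≤ ((univ \ A0).filter (fun v => p v = w)).card) := ⟨_, rfl⟩
  rw [← hVt] at ht
  have hVA : Vt ⊆ A0 := by
    rw [hVt]
    exact Finset.filter_subset _ _
  have hmV : ∀ w ∈ Vt, t ≤ ((univ \ A0).filter (fun v => p v = w)).card := by
    intro w hw
    rw [hVt] at hw
    exact (Finset.mem_filter.1 hw).2
  have hVne : Vt.Nonempty := by
    rw [← Finset.card_pos]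
    rcases Nat.eq_zero_or_pos Vt.card with h | h
    · rw [h, mul_zero] at ht
      omega
    · exact h
  obtain ⟨w0, hw0⟩ := hVne
  have htr : t ≤ ((univ \ A0).filter (fun v => p v = r)).card :=
    (hmV w0 hw0).trans (hmax w0 (hVA hw0))
  have htk : t ≤ 2 ^ k := by omega
  have hV128 : 128 < Vt.card := by
    by_contra hcon
    rw [not_lt] at hcon
    have h1 : t * Vt.card ≤ 2 ^ k * 128 := Nat.mul_le_mul htk hcon
    omega
  obtain ⟨W, hWdef⟩ : ∃ W : Finset V, W = Vt.erase r := ⟨_, rfl⟩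
  have hWV : W ⊆ Vt := by
    rw [hWdef]
    exact Finset.erase_subset _ _
  have hWc : Vt.card ≤ W.card + 1 := by
    rw [hWdef]
    have := Finset.pred_card_le_card_erase (s := Vt) (a := r)
    omega
  have hWI : W.card ≤ A0.card := Finset.card_le_card (hWV.trans hVA)
  obtain ⟨j, hj1, hj2⟩ : ∃ j : ℕ, 16 * 2 ^ j ≤ W.card ∧ W.card < 32 * 2 ^ j := by
    refine ⟨Nat.log 2 (W.card / 16), ?_, ?_⟩
    · have h1 : 2 ^ Nat.log 2 (W.card / 16) ≤ W.card / 16 :=
        Nat.pow_log_le_self 2 (by omega)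
      omega
    · have h1 : W.card / 16 < 2 ^ (Nat.log 2 (W.card / 16) + 1) :=
        Nat.lt_pow_succ_log_self one_lt_two _
      rw [pow_succ] at h1
      omega
  have h4 : 4 * 2 ^ k < t * 2 ^ j := by
    have h1 : t * Vt.card ≤ t * (32 * 2 ^ j) := Nat.mul_le_mul_left t (by omega)
    have h2 : t * (32 * 2 ^ j) = 32 * (t * 2 ^ j) := by ring
    omega
  have hjk : j < k := by
    have h1 : 2 ^ j < 2 ^ k := by omega
    exact (Nat.pow_lt_pow_iff_right one_lt_two).1 h1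
  have h5 : 4 * 2 ^ (k - j) < t := by
    have h1 : 2 ^ k = 2 ^ (k - j) * 2 ^ j := by
      rw [← pow_add]
      congr 1
      omega
    rw [h1, ← mul_assoc] at h4
    exact Nat.lt_of_mul_lt_mul_right h4
  refine plab_scale hpr hd hcV hU hE hpE hjk (by omega) (W := W)
    ((hWV.trans hVA).trans hAE) ?_ hj1 ?_
  · rw [hWdef]
    exact Finset.notMem_erase _ _
  · intro w hw
    rcases Finset.mem_insert.1 hw with h | h
    · subst h
      have := hEm w
      omega
    · have h6 := hEm w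
      have h7 := hmV w (hWV h)
      omega

end Pool.Agent.H60.FN
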