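import Mathlib
import Pool.Agent.H57.SS.TwoCenters

/-!
# FNTreeA: the leaves at a non-leaf are its children

Proof.  `r` is a non-leaf.  For a non-leaf `w`, the leaf neighbours of `w` are exactly the
`v` of degree one with `par hT r v = w`: use `adj_iff_par hT r w v`; if `v` is adjacent to `w` because
`w ≠ r` and `par hT r w = v`, then `v` is a parent, so it is not a leaf (`par_degree_ne_one`).
Conversely if `v` has degree one and `par hT r v = w`, then `v ≠ r` (`r` is a non-leaf) and `adj_par`.

`par_degree_ne_one`: if `par hT r v = r` it is `hr`.  Otherwise `u = par hT r v ≠ r` has the child `v`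
(so `1 <= (univ.filter (par hT r · = u)).card`) and `card_children hT r u` gives degree `>= 2`.
-/

set_option autoImplicit false

open Finset

namespace Pool.Agent.H60.FN

open Pool.Agent.H57.SS

section

variable {V : Type*} [Fintype V] [DecidableEq V] {T : SimpleGraph V} [DecidableRel T.Adj]

theorem par_degree_ne_one (hT : T.IsTree) {r : V} (hr : T.degree r ≠ 1) (v : V) :
    T.degree (par hT r v) ≠ 1 := by
  by_cases h : par hT r v = r
  · rw [h]
    exact hr
  · intro h1
    have h2 := card_children hT r (par hT r v) h
    have h3 : 0 < (univ.filter (fun u => par hT r u = par hT r v)).card :=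
      card_pos.2 ⟨v, by simp⟩
    omega

theorem leaf_children (hT : T.IsTree) {r : V} (hr : T.degree r ≠ 1) (w : V)
    (hw : T.degree w ≠ 1) :
    univ.filter (fun v => T.Adj w v ∧ T.degree v = 1)
      = (univ \ univ.filter (fun v => T.degree v ≠ 1)).filter (fun v => par hT r v = w) := by
  ext v
  simp only [mem_filter, mem_sdiff, mem_univ, true_and, not_not]
  constructor
  · rintro ⟨h1, h2⟩
    refine ⟨h2, ?_⟩
    rcases (adj_iff_par hT r w v).1 h1 with ⟨_, h3⟩ | ⟨_, h3⟩
    · exact absurd (h3 ▸ h2) (par_degree_ne_one hT hr w)
    · exact h3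
  · rintro ⟨h1, h2⟩
    have hvr : v ≠ r := by
      rintro rfl
      exact hr h1
    refine ⟨?_, h1⟩
    rw [← h2]
    exact (adj_par hT r v hvr).symm

end

end Pool.Agent.H60.FN
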