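import Mathlib
import Pool.Agent.H60.FN.TreeA
import Pool.Agent.H60.FN.Core

/-!
# FNTreeB: the theorem for trees, at a given scale `t`

Proof.  `A0 = univ.filter (T.degree v ≠ 1)`.  If `A0 = ∅` all degrees are one, the sum of the degrees is
`card V = 2 * (card V - 1)` (`T.sum_degrees_eq_twice_card_edges`, `hT.card_edgeFinset`), so `card V = 2`; take any
`r`, its neighbour is a leaf, `plab_half hT r hodd hc` (`Pool/Agent/H57/SS/Core.lean`, `2 ^ n = 2 <= 2 * (1 + 1)`)
and `exists_graceful`.
Otherwise let `r ∈ A0` maximise the number of leaf neighbours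
(`univ.filter (fun v => T.Adj w v ∧ T.degree v = 1)`).  `p = par hT r`, `d v = T.dist r v` (`dist_par`).
`EvenFib p univ`: for `w ≠ r` from `closed_univ hT r hodd`, for `w = r` from `card_children_root` and `hodd r`.
`par hT r v ∈ A0` for all `v` by `par_degree_ne_one`.  By `leaf_children` the numbers of leaves agree
(`(univ \ A0).filter (p · = w)` is the set of leaf neighbours of `w` for `w ∈ A0`).  `plab_core`, `exists_graceful`.
-/

set_option autoImplicit false

open Finset

namespace Pool.Agent.H60.FN

open Pool.Agent.H57.SS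

theorem graceful_of_scale {V : Type*} [Fintype V] [DecidableEq V] {T : SimpleGraph V}
    [DecidableRel T.Adj] (hT : T.IsTree) (hodd : ∀ v, Odd (T.degree v)) {n : ℕ}
    (hc : Fintype.card V = 2 ^ n) {t : ℕ}
    (ht : 4608 * (univ.filter (fun v => T.degree v ≠ 1)).card ≤
      t * (univ.filter (fun w => T.degree w ≠ 1 ∧
        t ≤ (univ.filter (fun v => T.Adj w v ∧ T.degree v = 1)).card)).card) :
    ∃ g : V → (Fin n → ZMod 2), Function.Bijective g ∧
      ∀ a b c d : V, T.Adj a b → T.Adj c d → g a + g b = g c + g d → s(a, b) = s(c, d) := by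
  obtain ⟨A0, hA0⟩ : ∃ A0 : Finset V, A0 = univ.filter (fun v => T.degree v ≠ 1) := ⟨_, rfl⟩
  by_cases hemp : A0 = ∅
  · have hall : ∀ v, T.degree v = 1 := by
      intro v
      by_contra hv
      have : v ∈ A0 := by rw [hA0]; simp [hv]
      rw [hemp] at this
      simp at this
    have hsum := T.sum_degrees_eq_twice_card_edges
    have hedge := hT.card_edgeFinset
    have hcard : Fintype.card V = 2 := by
      have h1 : ∑ v, T.degree v = Fintype.card V := by
        rw [sum_congr rfl (fun v _ => hall v)]
        simp
      rw [h1] at hsum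
      omega
    have hne : Nonempty V := by
      rw [← Fintype.card_pos_iff]
      omega
    obtain ⟨r⟩ := hne
    refine exists_graceful hT r hc (plab_half hT r hodd hc ?_)
    have h2 : 1 ≤ (univ.filter (fun v => T.Adj r v ∧ T.degree v = 1)).card := by
      have h3 : 0 < T.degree r := by rw [hall r]; norm_num
      rw [T.degree_pos_iff_exists_adj] at h3
      obtain ⟨v, hv⟩ := h3
      exact card_pos.2 ⟨v, by simp [hv, hall v]⟩
    have h4 : 2 ^ n = 2 := by rw [← hc, hcard]
    omega
  · have hne : A0.Nonempty := nonempty_iff_ne_empty.2 hemp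
    obtain ⟨r, hr, hmax⟩ := exists_max_image A0
      (fun w => (univ.filter (fun v => T.Adj w v ∧ T.degree v = 1)).card) hne
    have hmem : ∀ w, w ∈ A0 ↔ T.degree w ≠ 1 := by
      intro w
      rw [hA0]
      simp
    have hrd : T.degree r ≠ 1 := (hmem r).1 hr
    have hlc : ∀ w ∈ A0, univ.filter (fun v => T.Adj w v ∧ T.degree v = 1)
        = (univ \ A0).filter (fun v => par hT r v = w) := by
      intro w hw
      rw [leaf_children hT hrd w ((hmem w).1 hw), hA0]
    have hevf : EvenFib (par hT r) (univ : Finset V) := by
      intro w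
      by_cases hw : w = r
      · subst hw
        have h1 := card_children_root hT w
        obtain ⟨k, hk⟩ := hodd w
        exact ⟨k + 1, by omega⟩
      · have h1 := card_children hT r w hw
        obtain ⟨k, hk⟩ := hodd w
        exact ⟨k, by omega⟩
    refine exists_graceful hT r hc (plab_core (par_root hT r) (d := fun v => T.dist r v)
      (fun v hv => dist_par hT r v hv) hc hevf hr ?_ ?_ (t := t) ?_)
    · intro v
      exact (hmem _).2 (par_degree_ne_one hT hrd v)
    · intro w hw
      rw [← hlc w hw, ← hlc r hr]
      exact hmax w hw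
    · have h5 : univ.filter (fun w => T.degree w ≠ 1 ∧
          t ≤ (univ.filter (fun v => T.Adj w v ∧ T.degree v = 1)).card) =
          A0.filter (fun w => t ≤ ((univ \ A0).filter (fun v => par hT r v = w)).card) := by
        ext w
        rw [mem_filter, mem_filter, hmem]
        constructor
        · rintro ⟨-, h1, h2⟩
          refine ⟨h1, ?_⟩
          rwa [← hlc w ((hmem w).2 h1)]
        · rintro ⟨h1, h2⟩
          refine ⟨mem_univ _, h1, ?_⟩
          rwa [hlc w ((hmem w).2 h1)]
      rw [h5, ← hA0] at ht
      exact ht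

end Pool.Agent.H60.FN
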