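import Mathlib
import Pool.Agent.H60.FN.TreeA

/-!
# FNTreeC: a good scale exists if `5000 * n * I <= 2 ^ n` (pigeonhole)

Proof.  Let `ℓ w` be the number of leaf neighbours of `w`, `A0` the set of the non-leaves and `I` its cardinality.
If `I = 0` take `t = 0`.  Let `I >= 1`.  `n >= 1`: if `n = 0`, `V` has one vertex and its degree is `0`, not odd.
Choose `r ∈ A0`.  Every `v ∉ A0` has `par hT r v ∈ A0` (`par_degree_ne_one`), so by
`Finset.card_eq_sum_card_fiberwise` and `leaf_children`: `2 ^ n - I = ∑ w ∈ A0, ℓ w`.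
For every `m < 2 ^ n`: `m <= ∑ i ∈ range n, (if 2 ^ i <= m then 2 ^ i else 0)` (for `m >= 1`
with `i0 = Nat.log 2 m < n` the sum contains the `i <= i0`, with sum `2 ^ (i0 + 1) - 1 >= m`).
`ℓ w <= card V - 1 < 2 ^ n` (`w` is not its own neighbour).  Summing over `w ∈ A0` and exchanging the sums:
`2 ^ n - I <= ∑ i ∈ range n, 2 ^ i * (A0.filter (2 ^ i <= ℓ w)).card`.  If for all `i < n` the term is `< 4608 * I`,
the right hand side is `<= n * 4608 * I`, and `< n * 4608 * I` as `n >= 1`; so
`2 ^ n < I + 4608 * n * I <= 5000 * n * I`, a contradiction.  Take `t = 2 ^ i`.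
-/

set_option autoImplicit false

open Finset

namespace Pool.Agent.H60.FN

open Pool.Agent.H57.SS

private theorem FNTreeC_dyadic {n m : ℕ} (hm : m < 2 ^ n) :
    m ≤ ∑ i ∈ range n, (if 2 ^ i ≤ m then 2 ^ i else 0) := by
  induction n generalizing m with
  | zero => simp at hm; omega
  | succ n ih =>
    rw [sum_range_succ]
    by_cases h : 2 ^ n ≤ m
    · rw [if_pos h]
      have h1 : ∑ i ∈ range n, 2 ^ i ≤ ∑ i ∈ range n, (if 2 ^ i ≤ m then 2 ^ i else 0) := by
        apply sum_le_sum
        intro i hi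
        rw [if_pos]
        have h2 : 2 ^ i ≤ 2 ^ n := Nat.pow_le_pow_right (by norm_num) (mem_range.1 hi).le
        omega
      have h3 : ∑ i ∈ range n, 2 ^ i = 2 ^ n - 1 := by
        have := Nat.geomSum_eq (le_refl 2) n
        simpa using this
      have h4 : 1 ≤ 2 ^ n := Nat.one_le_two_pow
      rw [pow_succ] at hm
      omega
    · have := ih (not_le.1 h)
      omega

theorem exists_scale {V : Type*} [Fintype V] [DecidableEq V] {T : SimpleGraph V}
    [DecidableRel T.Adj] (hT : T.IsTree) (hodd : ∀ v, Odd (T.degree v)) {n : ℕ}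
    (hc : Fintype.card V = 2 ^ n)
    (h : 5000 * n * (univ.filter (fun v => T.degree v ≠ 1)).card ≤ 2 ^ n) :
    ∃ t : ℕ, 4608 * (univ.filter (fun v => T.degree v ≠ 1)).card ≤
      t * (univ.filter (fun w => T.degree w ≠ 1 ∧
        t ≤ (univ.filter (fun v => T.Adj w v ∧ T.degree v = 1)).card)).card := by
  obtain ⟨A0, hA0⟩ : ∃ A0 : Finset V, A0 = univ.filter (fun v => T.degree v ≠ 1) := ⟨_, rfl⟩
  have hmem : ∀ v, v ∈ A0 ↔ T.degree v ≠ 1 := by
    intro v
    rw [hA0]
    simp
  by_cases hemp : A0 = ∅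
  · refine ⟨0, ?_⟩
    rw [← hA0, hemp]
    simp
  obtain ⟨r, hr⟩ := nonempty_iff_ne_empty.2 hemp
  have hrd : T.degree r ≠ 1 := (hmem r).1 hr
  have hI : 1 ≤ A0.card := card_pos.2 ⟨r, hr⟩
  have hn : 1 ≤ n := by
    rcases Nat.eq_zero_or_pos n with h0 | h0
    · exfalso
      rw [h0, pow_zero] at hc
      have h1 : T.degree r = 0 := by
        rw [← SimpleGraph.card_neighborFinset_eq_degree, card_eq_zero]
        apply eq_empty_of_forall_notMem
        intro v hv
        have hadj : T.Adj r v := (T.mem_neighborFinset r v).1 hv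
        exact hadj.ne ((Fintype.card_le_one_iff.1 hc.le) r v)
      have h2 := hodd r
      rw [h1] at h2
      simp at h2
    · exact h0
  set L : V → ℕ := fun w => (univ.filter (fun v => T.Adj w v ∧ T.degree v = 1)).card with hL
  have hLlt : ∀ w, L w < 2 ^ n := by
    intro w
    rw [← hc, hL]
    apply card_lt_univ_of_notMem (x := w)
    simp
  have hsum : (univ \ A0).card = ∑ w ∈ A0, L w := by
    rw [card_eq_sum_card_fiberwise (f := fun v => par hT r v) (s := univ \ A0) (t := A0)]
    · apply sum_congr rfl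
      intro w hw
      rw [hL]
      show _ = (univ.filter (fun v => T.Adj w v ∧ T.degree v = 1)).card
      rw [leaf_children hT hrd w ((hmem w).1 hw), hA0]
    · intro v _
      exact (hmem _).2 (par_degree_ne_one hT hrd v)
  have hcs : (univ \ A0).card + A0.card = 2 ^ n := by
    rw [← hc, card_sdiff_add_card_eq_card (subset_univ _), card_univ]
  have hle : ∑ w ∈ A0, L w ≤ ∑ i ∈ range n, 2 ^ i * (A0.filter (fun w => 2 ^ i ≤ L w)).card := by
    calc ∑ w ∈ A0, L w ≤ ∑ w ∈ A0, ∑ i ∈ range n, (if 2 ^ i ≤ L w then 2 ^ i else 0) :=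
          sum_le_sum (fun w _ => FNTreeC_dyadic (hLlt w))
      _ = ∑ i ∈ range n, ∑ w ∈ A0, (if 2 ^ i ≤ L w then 2 ^ i else 0) := sum_comm
      _ = ∑ i ∈ range n, 2 ^ i * (A0.filter (fun w => 2 ^ i ≤ L w)).card := by
          apply sum_congr rfl
          intro i _
          rw [← sum_filter, sum_const, smul_eq_mul, mul_comm]
  by_contra hcon
  push Not at hcon
  have hterm : ∀ i, 2 ^ i * (A0.filter (fun w => 2 ^ i ≤ L w)).card < 4608 * A0.card := by
    intro i
    have h1 := hcon (2 ^ i)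
    rw [← hA0] at h1
    have h2 : univ.filter (fun w => T.degree w ≠ 1 ∧
        2 ^ i ≤ (univ.filter (fun v => T.Adj w v ∧ T.degree v = 1)).card) =
        A0.filter (fun w => 2 ^ i ≤ L w) := by
      ext w
      simp only [mem_filter, mem_univ, true_and, hmem, hL]
    rw [h2] at h1
    exact h1
  have hlt : ∑ i ∈ range n, 2 ^ i * (A0.filter (fun w => 2 ^ i ≤ L w)).card
      ≤ n * (4608 * A0.card) := by
    calc ∑ i ∈ range n, 2 ^ i * (A0.filter (fun w => 2 ^ i ≤ L w)).card
        ≤ ∑ _i ∈ range n, 4608 * A0.card := sum_le_sum (fun i _ => (hterm i).le)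
      _ = n * (4608 * A0.card) := by rw [sum_const, card_range, smul_eq_mul]
  rw [← hA0] at h
  have h5 : A0.card ≤ n * A0.card := Nat.le_mul_of_pos_left _ hn
  have h6 : 5000 * n * A0.card = 5000 * (n * A0.card) := by ring
  have h7 : n * (4608 * A0.card) = 4608 * (n * A0.card) := by ring
  have h8 : 1 ≤ n * A0.card := le_trans hI h5
  omega

end Pool.Agent.H60.FN
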